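import Pool.Agent.Lib.MP_ed311f_ag.Pieces

/-!
# The toric variety of the fan: points, charts, topology
-/

open Topology

namespace HoloConj
namespace TV

/-- `ℂ⁴` -/
abbrev C4 : Type := Fin 4 → ℂ

/-! ### Duality -/

theorem dual_ray' : ∀ (σ : Fin 48) (i j : Fin 4),
    ray (cone σ 0) i * dual σ 0 j + ray (cone σ 1) i * dual σ 1 j +
      ray (cone σ 2) i * dual σ 2 j + ray (cone σ 3) i * dual σ 3 j = if i = j then 1 else 0 := by
  decide +kernel

theorem pair_expand (σ : Fin 48) (m v : Fin 4 → ℤ) :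
    ∑ k, pair (dual σ k) v * pair m (ray (cone σ k)) = pair m v := by
  have h := dual_ray' σ
  have h00 := h 0 0; have h01 := h 0 1; have h02 := h 0 2; have h03 := h 0 3
  have h10 := h 1 0; have h11 := h 1 1; have h12 := h 1 2; have h13 := h 1 3
  have h20 := h 2 0; have h21 := h 2 1; have h22 := h 2 2; have h23 := h 2 3
  have h30 := h 3 0; have h31 := h 3 1; have h32 := h 3 2; have h33 := h 3 3
  simp only [Fin.isValue, if_true, Fin.reduceEq, if_false] at *
  rw [Fin.sum_univ_four]
  simp only [pair]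
  linear_combination m 0 * v 0 * h00 + m 0 * v 1 * h01 + m 0 * v 2 * h02 + m 0 * v 3 * h03 +
    m 1 * v 0 * h10 + m 1 * v 1 * h11 + m 1 * v 2 * h12 + m 1 * v 3 * h13 +
    m 2 * v 0 * h20 + m 2 * v 1 * h21 + m 2 * v 2 * h22 + m 2 * v 3 * h23 +
    m 3 * v 0 * h30 + m 3 * v 1 * h31 + m 3 * v 2 * h32 + m 3 * v 3 * h33

theorem cone_injective : ∀ σ : Fin 48, Function.Injective (cone σ) := by
  intro σ k l h
  by_contra hne
  have h1 := dual_ray σ k l
  have h2 := dual_ray σ k k
  rw [h] at h2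
  rw [h2] at h1
  simp [hne] at h1

/-! ### Laurent monomials -/

/-- value at `t` of the Laurent monomial `m` in the chart `σ` (with `0 ^ 0 = 1` and `0 ^ a = 0` for
`a ≠ 0`) -/
noncomputable def mon (σ : Fin 48) (t : C4) (m : Fin 4 → ℤ) : ℂ :=
  ∏ k, t k ^ pair m (ray (cone σ k))

/-- the rays whose divisor contains the point `t` of the chart `σ` -/
def zer (σ : Fin 48) (t : C4) : Set (Fin 18) := {ρ | ∃ k, cone σ k = ρ ∧ t k = 0}

theorem mem_zer {σ : Fin 48} {t : C4} {ρ : Fin 18} : ρ ∈ zer σ t ↔ ∃ k, cone σ k = ρ ∧ t k = 0 :=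
  Iff.rfl

theorem cone_mem_zer {σ : Fin 48} {t : C4} {k : Fin 4} : cone σ k ∈ zer σ t ↔ t k = 0 := by
  constructor
  · rintro ⟨l, hl, h⟩
    rwa [← cone_injective σ hl]
  · intro h
    exact ⟨k, rfl, h⟩

theorem mon_dual (σ : Fin 48) (t : C4) (k : Fin 4) : mon σ t (dual σ k) = t k := by
  unfold mon
  rw [Finset.prod_eq_single k]
  · rw [dual_ray]; simp
  · intro l _ hl
    rw [dual_ray]
    rw [if_neg (Ne.symm hl)]
    simp
  · simp

/-- the coordinates in the chart `τ` of the point `t` of the chart `σ` -/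
noncomputable def trans (σ τ : Fin 48) (t : C4) : C4 := fun k => mon σ t (dual τ k)

/-- the point `t` of the chart `σ` lies in the chart `τ` -/
def good (σ τ : Fin 48) (t : C4) : Prop := ∀ k, (∀ l, cone τ l ≠ cone σ k) → t k ≠ 0

theorem mon_trans {σ τ : Fin 48} {t : C4} (h : good σ τ t) (m : Fin 4 → ℤ) :
    mon τ (trans σ τ t) m = mon σ t m := by
  unfold mon trans mon
  simp only [← Finset.prod_zpow]
  rw [Finset.prod_comm]
  refine Finset.prod_congr rfl fun k _ => ?_
  by_cases hk : t k = 0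
  · obtain ⟨l, hl⟩ : ∃ l, cone τ l = cone σ k := by
      by_contra hcon
      push Not at hcon
      exact h k hcon hk
    rw [Finset.prod_eq_single l]
    · rw [← hl, dual_ray]; simp
    · intro l' _ hl'
      rw [← hl, dual_ray, if_neg hl']
      simp
    · simp
  · simp only [← zpow_mul]
    rw [← pair_expand τ m (ray (cone σ k))]
    have key : ∀ s : Finset (Fin 4), ∏ i ∈ s, t k ^ (pair (dual τ i) (ray (cone σ k)) *
        pair m (ray (cone τ i))) = t k ^ ∑ i ∈ s, pair (dual τ i) (ray (cone σ k)) *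
        pair m (ray (cone τ i)) := by
      intro s
      induction s using Finset.induction_on with
      | empty => simp
      | insert a s ha ih => rw [Finset.prod_insert ha, Finset.sum_insert ha, ih, zpow_add₀ hk]
    exact key _

theorem trans_eq_zero_iff {σ τ : Fin 48} {t : C4} (h : good σ τ t) (l : Fin 4) :
    trans σ τ t l = 0 ↔ ∃ k, cone σ k = cone τ l ∧ t k = 0 := by
  unfold trans mon
  rw [Finset.prod_eq_zero_iff]
  constructor
  · rintro ⟨k, -, hk⟩
    have hk0 : t k = 0 := by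
      by_contra hne
      exact zpow_ne_zero _ hne hk
    refine ⟨k, ?_, hk0⟩
    obtain ⟨l', hl'⟩ : ∃ l', cone τ l' = cone σ k := by
      by_contra hcon
      push Not at hcon
      exact h k hcon hk0
    rw [← hl', dual_ray] at hk
    by_cases hll : l = l'
    · rw [hll, hl']
    · rw [if_neg hll] at hk
      simp at hk
  · rintro ⟨k, hk, hk0⟩
    refine ⟨k, Finset.mem_univ _, ?_⟩
    rw [hk, dual_ray, hk0]
    simp

theorem zer_trans {σ τ : Fin 48} {t : C4} (h : good σ τ t) : zer τ (trans σ τ t) = zer σ t := by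
  ext ρ
  constructor
  · rintro ⟨l, rfl, hl⟩
    rw [trans_eq_zero_iff h] at hl
    obtain ⟨k, hk, hk0⟩ := hl
    exact ⟨k, hk, hk0⟩
  · rintro ⟨k, rfl, hk⟩
    obtain ⟨l', hl'⟩ : ∃ l', cone τ l' = cone σ k := by
      by_contra hcon
      push Not at hcon
      exact h k hcon hk
    exact ⟨l', hl', (trans_eq_zero_iff h l').2 ⟨k, hl'.symm, hk⟩⟩

/-! ### Points -/

/-- Points of the toric variety: a point is determined by the set `Z` of rays whose divisor
contains the point, and by the values `x` of the Laurent monomials. -/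
@[ext]
structure Pt : Type where
  Z : Set (Fin 18)
  x : (Fin 4 → ℤ) → ℂ
  ex : ∃ σ t, Z = zer σ t ∧ x = mon σ t

/-- the charts -/
noncomputable def phi (σ : Fin 48) (t : C4) : Pt := ⟨zer σ t, mon σ t, σ, t, rfl, rfl⟩

@[simp] theorem phi_Z (σ : Fin 48) (t : C4) : (phi σ t).Z = zer σ t := rfl
@[simp] theorem phi_x (σ : Fin 48) (t : C4) : (phi σ t).x = mon σ t := rfl

theorem exists_phi (y : Pt) : ∃ σ t, phi σ t = y := by
  obtain ⟨Z, x, σ, t, rfl, rfl⟩ := y
  exact ⟨σ, t, rfl⟩

theorem good_iff_zer {σ τ : Fin 48} {t : C4} :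
    good σ τ t ↔ ∀ ρ ∈ zer σ t, ∃ l, cone τ l = ρ := by
  constructor
  · rintro h ρ ⟨k, rfl, hk⟩
    by_contra hcon
    push Not at hcon
    exact h k hcon hk
  · intro h k hk hk0
    obtain ⟨l, hl⟩ := h _ ⟨k, rfl, hk0⟩
    exact hk l hl

theorem phi_eq_iff {σ τ : Fin 48} {t u : C4} :
    phi σ t = phi τ u ↔ good σ τ t ∧ u = trans σ τ t := by
  constructor
  · intro h
    have hZ : zer σ t = zer τ u := congrArg Pt.Z h
    have hx : mon σ t = mon τ u := congrArg Pt.x h
    constructor
    · rw [good_iff_zer, hZ]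
      rintro ρ ⟨k, hk, -⟩
      exact ⟨k, hk⟩
    · funext k
      unfold trans
      rw [hx, mon_dual]
  · rintro ⟨h, rfl⟩
    apply Pt.ext
    · exact (zer_trans h).symm
    · funext m
      exact (mon_trans h m).symm

theorem phi_injective (σ : Fin 48) : Function.Injective (phi σ) := by
  intro t u h
  have hx : mon σ t = mon σ u := congrArg Pt.x h
  funext k
  rw [← mon_dual σ t k, hx, mon_dual]

theorem mem_range_phi {σ τ : Fin 48} {t : C4} : phi σ t ∈ Set.range (phi τ) ↔ good σ τ t := by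
  constructor
  · rintro ⟨u, hu⟩
    exact (phi_eq_iff.1 hu.symm).1
  · intro h
    exact ⟨trans σ τ t, (phi_eq_iff.2 ⟨h, rfl⟩).symm⟩

theorem mem_range_phi_iff {τ : Fin 48} {y : Pt} :
    y ∈ Set.range (phi τ) ↔ ∀ ρ ∈ y.Z, ∃ l, cone τ l = ρ := by
  obtain ⟨σ, t, rfl⟩ := exists_phi y
  rw [mem_range_phi, good_iff_zer]
  rfl

/-! ### Topology -/

noncomputable instance : TopologicalSpace Pt := ⨆ σ, TopologicalSpace.coinduced (phi σ) inferInstance

theorem isOpen_iff {U : Set Pt} : IsOpen U ↔ ∀ σ, IsOpen (phi σ ⁻¹' U) := by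
  change IsOpen[⨆ σ, TopologicalSpace.coinduced (phi σ) inferInstance] U ↔ _
  rw [isOpen_iSup_iff]
  rfl

theorem isClosed_iff {U : Set Pt} : IsClosed U ↔ ∀ σ, IsClosed (phi σ ⁻¹' U) := by
  rw [← isOpen_compl_iff, isOpen_iff]
  exact forall_congr' fun σ => by rw [Set.preimage_compl, isOpen_compl_iff]

theorem continuous_phi (σ : Fin 48) : Continuous (phi σ) :=
  continuous_def.2 fun _ hU => isOpen_iff.1 hU σ

theorem continuous_iff {X : Type} [TopologicalSpace X] {g : Pt → X} :
    Continuous g ↔ ∀ σ, Continuous (g ∘ phi σ) := by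
  constructor
  · intro h σ
    exact h.comp (continuous_phi σ)
  · intro h
    rw [continuous_def]
    intro U hU
    rw [isOpen_iff]
    intro σ
    exact (h σ).isOpen_preimage U hU

theorem isOpen_good (σ τ : Fin 48) : IsOpen {t | good σ τ t} := by
  have : {t | good σ τ t} = ⋂ k, {t : C4 | (∀ l, cone τ l ≠ cone σ k) → t k ≠ 0} := by
    ext t; simp [good]
  rw [this]
  refine isOpen_iInter_of_finite fun k => ?_
  by_cases hk : ∀ l, cone τ l ≠ cone σ k
  · have : {t : C4 | (∀ l, cone τ l ≠ cone σ k) → t k ≠ 0} = {t : C4 | t k ≠ 0} := by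
      ext t; simp [hk]
    rw [this]
    exact isOpen_ne_fun (continuous_apply k) continuous_const
  · have : {t : C4 | (∀ l, cone τ l ≠ cone σ k) → t k ≠ 0} = Set.univ := by
      ext t
      simp only [Set.mem_ofPred_eq, Set.mem_univ, iff_true]
      intro h
      exact absurd h hk
    rw [this]
    exact isOpen_univ

theorem continuousOn_mon (σ τ : Fin 48) (l : Fin 4) :
    ContinuousOn (fun t => mon σ t (dual τ l)) {t | good σ τ t} := by
  unfold mon
  refine continuousOn_finsetProd _ fun k _ => ?_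
  by_cases hk : ∀ l, cone τ l ≠ cone σ k
  · refine ContinuousOn.zpow₀ (continuous_apply k).continuousOn _ ?_
    intro t ht
    exact Or.inl (ht k hk)
  · push Not at hk
    obtain ⟨l', hl'⟩ := hk
    rw [← hl', dual_ray]
    refine ContinuousOn.zpow₀ (continuous_apply k).continuousOn _ ?_
    intro t ht
    right
    split_ifs <;> simp

theorem continuousOn_trans (σ τ : Fin 48) : ContinuousOn (trans σ τ) {t | good σ τ t} := by
  refine continuousOn_pi.2 fun l => continuousOn_mon σ τ l

theorem isOpenEmbedding_phi (σ : Fin 48) : IsOpenEmbedding (phi σ) := by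
  refine IsOpenEmbedding.of_continuous_injective_isOpenMap (continuous_phi σ) (phi_injective σ) ?_
  intro U hU
  rw [isOpen_iff]
  intro τ
  have : phi τ ⁻¹' (phi σ '' U) = {t | good τ σ t} ∩ trans τ σ ⁻¹' U := by
    ext u
    constructor
    · rintro ⟨t, ht, htu⟩
      obtain ⟨h1, h2⟩ := phi_eq_iff.1 htu.symm
      refine ⟨h1, ?_⟩
      change trans τ σ u ∈ U
      rwa [← h2]
    · rintro ⟨h1, h2⟩
      exact ⟨trans τ σ u, h2, (phi_eq_iff.2 ⟨h1, rfl⟩).symm⟩
  rw [this]
  exact (continuousOn_trans τ σ).isOpen_inter_preimage (isOpen_good τ σ) hU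

/-! ### Separatedness -/

/-- separating monomial -/
noncomputable def sep (σ τ : Fin 48) (t : C4) : ℂ :=
  ∏ k, t k ^ (pair (lin τ) (ray (cone σ k)) - supp (cone σ k)).toNat

theorem supp_le (σ : Fin 48) (ρ : Fin 18) : supp ρ ≤ pair (lin σ) (ray ρ) := by
  by_cases h : ∀ k, cone σ k ≠ ρ
  · exact (supp_strict σ ρ h).le
  · push Not at h
    obtain ⟨k, rfl⟩ := h
    apply le_of_eq
    have h0 := dual_ray σ 0 k
    have h1 := dual_ray σ 1 k
    have h2 := dual_ray σ 2 k
    have h3 := dual_ray σ 3 k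
    unfold pair at *
    unfold lin
    have key : ∀ a b c d e : ℤ, (a = if (0 : Fin 4) = k then 1 else 0) →
        (b = if (1 : Fin 4) = k then 1 else 0) → (c = if (2 : Fin 4) = k then 1 else 0) →
        (d = if (3 : Fin 4) = k then 1 else 0) →
        supp (cone σ k) = supp (cone σ 0) * a + supp (cone σ 1) * b + supp (cone σ 2) * c +
          supp (cone σ 3) * d := by
      intro a b c d e ha hb hc hd
      subst ha hb hc hd
      fin_cases k <;> simp
    rw [key _ _ _ _ 0 h0 h1 h2 h3]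
    ring

theorem lin_eq_supp (σ : Fin 48) (k : Fin 4) :
    pair (lin σ) (ray (cone σ k)) = supp (cone σ k) := by
  have h0 := dual_ray σ 0 k
  have h1 := dual_ray σ 1 k
  have h2 := dual_ray σ 2 k
  have h3 := dual_ray σ 3 k
  unfold pair at *
  unfold lin
  have key : ∀ a b c d e : ℤ, (a = if (0 : Fin 4) = k then 1 else 0) →
      (b = if (1 : Fin 4) = k then 1 else 0) → (c = if (2 : Fin 4) = k then 1 else 0) →
      (d = if (3 : Fin 4) = k then 1 else 0) →
      supp (cone σ k) = supp (cone σ 0) * a + supp (cone σ 1) * b + supp (cone σ 2) * c +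
        supp (cone σ 3) * d := by
    intro a b c d e ha hb hc hd
    subst ha hb hc hd
    fin_cases k <;> simp
  rw [key _ _ _ _ 0 h0 h1 h2 h3]
  ring

theorem continuous_sep (σ τ : Fin 48) : Continuous (sep σ τ) := by
  unfold sep
  fun_prop

theorem sep_good {σ τ : Fin 48} {t : C4} (h : sep σ τ t ≠ 0) : good σ τ t := by
  intro k hk hk0
  apply h
  unfold sep
  rw [Finset.prod_eq_zero_iff]
  refine ⟨k, Finset.mem_univ _, ?_⟩
  rw [hk0, zero_pow]
  have := supp_strict τ (cone σ k) hk
  omega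

theorem sep_eq_mon {σ τ : Fin 48} {t : C4} (h : good σ τ t) :
    sep σ τ t = mon σ t (lin τ - lin σ) := by
  unfold sep mon
  refine Finset.prod_congr rfl fun k _ => ?_
  have h1 : pair (lin τ - lin σ) (ray (cone σ k)) =
      ((pair (lin τ) (ray (cone σ k)) - supp (cone σ k)).toNat : ℤ) := by
    rw [Int.toNat_of_nonneg (by have := supp_le τ (cone σ k); omega), ← lin_eq_supp σ k]
    simp only [pair, Pi.sub_apply]
    ring
  rw [h1, zpow_natCast]

theorem sep_mul {σ τ : Fin 48} {t u : C4} (h : phi σ t = phi τ u) :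
    sep σ τ t * sep τ σ u = 1 := by
  have hZ := (phi_eq_iff.1 h).1
  have hZ' := (phi_eq_iff.1 h.symm).1
  rw [sep_eq_mon hZ, sep_eq_mon hZ']
  have hx : mon σ t = mon τ u := congrArg Pt.x h
  rw [← hx]
  unfold mon
  rw [← Finset.prod_mul_distrib]
  refine Finset.prod_eq_one fun k _ => ?_
  have h1 : pair (lin σ - lin τ) (ray (cone σ k)) = - pair (lin τ - lin σ) (ray (cone σ k)) := by
    simp only [pair, Pi.sub_apply]
    ring
  rw [h1]
  by_cases hk : t k = 0
  · have h2 : pair (lin τ - lin σ) (ray (cone σ k)) = 0 := by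
      have h3 : ∃ l, cone τ l = cone σ k := by
        by_contra hcon
        push Not at hcon
        exact hZ k hcon hk
      obtain ⟨l, hl⟩ := h3
      have h4 : pair (lin τ) (ray (cone σ k)) = supp (cone σ k) := by
        rw [← hl, lin_eq_supp]
      have h5 := lin_eq_supp σ k
      have h6 : pair (lin τ - lin σ) (ray (cone σ k)) =
          pair (lin τ) (ray (cone σ k)) - pair (lin σ) (ray (cone σ k)) := by
        simp only [pair, Pi.sub_apply]
        ring
      rw [h6, h4, h5, sub_self]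
    rw [h2]
    simp
  · rw [← zpow_add₀ hk]
    simp

instance : T2Space Pt := by
  have same : ∀ (τ : Fin 48) (y y' : Pt), y ∈ Set.range (phi τ) → y' ∈ Set.range (phi τ) →
      y ≠ y' → ∃ u v : Set Pt, IsOpen u ∧ IsOpen v ∧ y ∈ u ∧ y' ∈ v ∧ Disjoint u v := by
    rintro τ y y' ⟨t, rfl⟩ ⟨t', rfl⟩ hne
    have hne' : t ≠ t' := fun h => hne (by rw [h])
    obtain ⟨u, v, hu, hv, htu, htv, hd⟩ := t2_separation hne'
    refine ⟨phi τ '' u, phi τ '' v, (isOpenEmbedding_phi τ).isOpenMap _ hu,
      (isOpenEmbedding_phi τ).isOpenMap _ hv, ⟨t, htu, rfl⟩, ⟨t', htv, rfl⟩, ?_⟩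
    exact (Set.disjoint_image_iff (phi_injective τ)).2 hd
  refine ⟨fun y y' hne => ?_⟩
  obtain ⟨σ, t, rfl⟩ := exists_phi y
  obtain ⟨τ, u, rfl⟩ := exists_phi y'
  by_cases h1 : sep σ τ t = 0
  · by_cases h2 : sep τ σ u = 0
    · refine ⟨phi σ '' {t | ‖sep σ τ t‖ < 1}, phi τ '' {u | ‖sep τ σ u‖ < 1},
        (isOpenEmbedding_phi σ).isOpenMap _ ?_, (isOpenEmbedding_phi τ).isOpenMap _ ?_,
        ⟨t, ?_, rfl⟩, ⟨u, ?_, rfl⟩, ?_⟩
      · exact isOpen_lt (continuous_sep σ τ).norm continuous_const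
      · exact isOpen_lt (continuous_sep τ σ).norm continuous_const
      · simp [h1]
      · simp [h2]
      · rw [Set.disjoint_left]
        rintro _ ⟨a, ha, rfl⟩ ⟨b, hb, hab⟩
        have := sep_mul hab.symm
        have h3 : ‖sep σ τ a‖ * ‖sep τ σ b‖ = 1 := by
          rw [← norm_mul, this, norm_one]
        have h4 : ‖sep σ τ a‖ < 1 := ha
        have h5 : ‖sep τ σ b‖ < 1 := hb
        nlinarith [norm_nonneg (sep σ τ a), norm_nonneg (sep τ σ b)]
    · exact same σ _ _ ⟨t, rfl⟩ (mem_range_phi.2 (sep_good h2)) hne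
  · exact same τ _ _ (mem_range_phi.2 (sep_good h1)) ⟨u, rfl⟩ hne

/-! ### Regularity of the coordinate changes -/

theorem eval_monomial_toNat (a : Fin 4 → ℤ) (u : C4) :
    MvPolynomial.eval u (∏ l, MvPolynomial.X l ^ (a l).toNat : MvPolynomial (Fin 4) ℂ) =
      ∏ l, u l ^ (a l).toNat := by
  simp

/-- large exponent -/
def big (σ τ : Fin 48) : ℤ := 1 + ∑ k, ∑ l, |pair (dual τ k) (ray (cone σ l))|

theorem le_big (σ τ : Fin 48) (k l : Fin 4) : 0 ≤ pair (dual τ k) (ray (cone σ l)) + big σ τ := by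
  unfold big
  have h1 : |pair (dual τ k) (ray (cone σ l))| ≤ ∑ l, |pair (dual τ k) (ray (cone σ l))| :=
    Finset.single_le_sum (f := fun l => |pair (dual τ k) (ray (cone σ l))|)
      (fun _ _ => abs_nonneg _) (Finset.mem_univ l)
  have h2 : ∑ l, |pair (dual τ k) (ray (cone σ l))| ≤
      ∑ k, ∑ l, |pair (dual τ k) (ray (cone σ l))| :=
    Finset.single_le_sum (f := fun k => ∑ l, |pair (dual τ k) (ray (cone σ l))|)
      (fun _ _ => Finset.sum_nonneg fun _ _ => abs_nonneg _) (Finset.mem_univ k)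
  have h3 := neg_abs_le (pair (dual τ k) (ray (cone σ l)))
  omega

theorem big_pos (σ τ : Fin 48) : 0 < big σ τ := by
  unfold big
  have : 0 ≤ ∑ k, ∑ l, |pair (dual τ k) (ray (cone σ l))| :=
    Finset.sum_nonneg fun _ _ => Finset.sum_nonneg fun _ _ => abs_nonneg _
  omega

theorem transition (σ τ : Fin 48) :
    ∃ (g : MvPolynomial (Fin 4) ℂ) (P : Fin 4 → MvPolynomial (Fin 4) ℂ),
    (∀ u, phi σ u ∈ Set.range (phi τ) ↔ MvPolynomial.eval u g ≠ 0) ∧
    ∀ u v, phi σ u = phi τ v → ∀ k, v k * MvPolynomial.eval u g = MvPolynomial.eval u (P k) := by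
  classical
  let D : Fin 4 → ℤ := fun l => if ∃ l', cone τ l' = cone σ l then 0 else big σ τ
  have hD : ∀ l, 0 ≤ D l := by
    intro l
    have := big_pos σ τ
    simp only [D]
    split_ifs <;> omega
  refine ⟨∏ l, MvPolynomial.X l ^ (D l).toNat, fun k => ∏ l, MvPolynomial.X l ^
    (pair (dual τ k) (ray (cone σ l)) + D l).toNat, ?_, ?_⟩
  · intro u
    rw [mem_range_phi, eval_monomial_toNat, Finset.prod_ne_zero_iff]
    constructor
    · intro h l _
      simp only [D]
      split_ifs with hl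
      · simp
      · exact pow_ne_zero _ (h l (by push Not at hl; exact hl))
    · intro h l hl h0
      have := h l (Finset.mem_univ _)
      have hl' : ¬ ∃ l', cone τ l' = cone σ l := by
        push Not; exact hl
      simp only [D, if_neg hl', h0] at this
      rw [zero_pow] at this
      · exact this rfl
      · have := big_pos σ τ
        omega
  · intro u v h k
    obtain ⟨h1, rfl⟩ := phi_eq_iff.1 h
    rw [eval_monomial_toNat]
    have e2 : MvPolynomial.eval u (∏ l, MvPolynomial.X l ^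
        (pair (dual τ k) (ray (cone σ l)) + D l).toNat : MvPolynomial (Fin 4) ℂ) =
        ∏ l, u l ^ (pair (dual τ k) (ray (cone σ l)) + D l).toNat :=
      eval_monomial_toNat (fun l => pair (dual τ k) (ray (cone σ l)) + D l) u
    rw [e2]
    unfold trans mon
    rw [← Finset.prod_mul_distrib]
    refine Finset.prod_congr rfl fun l _ => ?_
    by_cases hl : ∃ l', cone τ l' = cone σ l
    · have hDl : D l = 0 := if_pos hl
      rw [hDl]
      obtain ⟨l', hl'⟩ := hl
      rw [← hl', dual_ray]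
      split_ifs <;> simp
    · have hDl : D l = big σ τ := if_neg hl
      rw [hDl]
      have hne : u l ≠ 0 := h1 l (by push Not at hl; exact hl)
      rw [← zpow_natCast (u l) (big σ τ).toNat, ← zpow_natCast (u l)
        (pair (dual τ k) (ray (cone σ l)) + big σ τ).toNat, ← zpow_add₀ hne,
        Int.toNat_of_nonneg (big_pos σ τ).le, Int.toNat_of_nonneg (le_big σ τ k l)]

theorem good_of_ne_zero {σ τ : Fin 48} {t : C4} (h : ∀ k, t k ≠ 0) : good σ τ t :=
  fun k _ => h k

/-- The toric variety. -/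
noncomputable def toricVariety : ChartVariety 4 where
  Pt := Pt
  ι := Fin 48
  chart := phi
  isOpenEmbedding_chart := isOpenEmbedding_phi
  exists_chart := exists_phi
  overlap_nonempty σ τ := ⟨fun _ => 1, trans σ τ fun _ => 1,
    phi_eq_iff.2 ⟨good_of_ne_zero fun _ => one_ne_zero, rfl⟩⟩
  transition := transition

end TV
end HoloConj
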