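import Pool.Agent.Lib.MP_ed311f_ag.TV.Map

/-!
# `h` is an isomorphism over `{f ≠ 0}`
-/

open Topology MvPolynomial

namespace HoloConj
namespace TV

/-- the coordinate rays -/
def idx : Fin 4 → Fin 18 := ![0, 1, 2, 3]

theorem exists_idx : ∀ ρ : Fin 18, rN ρ = 0 → ∃ j, ρ = idx j := by decide +kernel

theorem ray_idx : ∀ i j : Fin 4, ray (idx j) i = if j = i then 1 else 0 := by decide +kernel

theorem rayN_idx : ∀ i j : Fin 4, rayN (idx j) i = if j = i then 1 else 0 := by decide +kernel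

theorem Z_of_ff_ne_zero {y : Pt} (h : ff (hmap y) ≠ 0) :
    y.Z = {ρ | ∃ j, ρ = idx j ∧ rN ρ = 0 ∧ hmap y j = 0} := by
  obtain ⟨σ, t, rfl⟩ := exists_phi y
  rw [ff_hmap] at h
  have h1 : ∀ k, t k = 0 → rN (cone σ k) = 0 := by
    intro k hk
    by_contra hne
    apply h
    rw [Finset.prod_eq_zero (Finset.mem_univ k), zero_mul]
    rw [hk, zero_pow hne]
  ext ρ
  constructor
  · rintro ⟨k, rfl, hk⟩
    obtain ⟨j, hj⟩ := exists_idx _ (h1 k hk)
    refine ⟨j, hj, h1 k hk, ?_⟩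
    rw [hmap_phi]
    apply Finset.prod_eq_zero (Finset.mem_univ k)
    rw [hk, hj, rayN_idx]
    simp
  · rintro ⟨j, rfl, h2, h3⟩
    rw [hmap_phi, Finset.prod_eq_zero_iff] at h3
    obtain ⟨k, -, hk⟩ := h3
    have hk0 : t k = 0 := by
      by_contra hne
      exact pow_ne_zero _ hne hk
    refine ⟨k, ?_, hk0⟩
    obtain ⟨j', hj'⟩ := exists_idx _ (h1 k hk0)
    rw [hj', rayN_idx, hk0] at hk
    by_cases hjj : j' = j
    · rw [hj', hjj]
    · rw [if_neg hjj] at hk
      simp at hk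

theorem x_of_ff_ne_zero {y : Pt} (h : ff (hmap y) ≠ 0) (m : Fin 4 → ℤ) :
    y.x m = ∏ j, hmap y j ^ m j := by
  obtain ⟨σ, t, rfl⟩ := exists_phi y
  rw [ff_hmap] at h
  have h1 : ∀ k, t k = 0 → rN (cone σ k) = 0 := by
    intro k hk
    by_contra hne
    apply h
    rw [Finset.prod_eq_zero (Finset.mem_univ k), zero_mul]
    rw [hk, zero_pow hne]
  simp only [hmap_phi]
  change mon σ t m = _
  simp only [← Finset.prod_zpow]
  rw [Finset.prod_comm]
  unfold mon
  refine Finset.prod_congr rfl fun k _ => ?_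
  by_cases hk : t k = 0
  · obtain ⟨j, hj⟩ := exists_idx _ (h1 k hk)
    rw [Finset.prod_eq_single j]
    · rw [hj, hk, rayN_idx]
      have : pair m (ray (idx j)) = m j := by
        unfold pair
        simp only [ray_idx]
        fin_cases j <;> simp
      rw [this]
      simp
    · intro j' _ hne
      rw [hj, rayN_idx, if_neg (Ne.symm hne)]
      simp
    · simp
  · rw [Fin.prod_univ_four]
    simp only [← zpow_natCast, ← zpow_mul]
    rw [← zpow_add₀ hk, ← zpow_add₀ hk, ← zpow_add₀ hk]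
    congr 1
    simp only [rayN_eq, pair]
    ring

theorem h_unique {y y' : Pt} (h : ff (hmap y) ≠ 0) (hh : hmap y = hmap y') : y = y' := by
  have h' : ff (hmap y') ≠ 0 := by rwa [← hh]
  apply Pt.ext
  · rw [Z_of_ff_ne_zero h, Z_of_ff_ne_zero h', hh]
  · funext m
    rw [x_of_ff_ne_zero h, x_of_ff_ne_zero h', hh]

theorem h_inv' (x : Fin 4 → ℂ) (hx : ff x ≠ 0) : ∃ (i : Fin 48) (g : MvPolynomial (Fin 4) ℂ)
    (P : Fin 4 → MvPolynomial (Fin 4) ℂ), eval x g ≠ 0 ∧
    ∀ x', ff x' ≠ 0 → eval x' g ≠ 0 →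
      hmap (phi i fun k => eval x' (P k) / eval x' g) = x' := by
  have hy : x 1 ≠ 0 := by
    intro h
    apply hx
    simp [ff, h]
  by_cases hw : x 3 = 0
  · have hx0 : x 0 ≠ 0 := by
      intro h
      apply hx
      simp [ff, h, hw]
    refine ⟨11, X 0, ![X 1, X 2, X 3, X 0 ^ 2], ?_, ?_⟩
    · simpa using hx0
    · intro x' _ hg
      have hg' : x' 0 ≠ 0 := by simpa using hg
      funext j
      rw [hmap_phi, Fin.prod_univ_four]
      fin_cases j <;> simp [rayN, ray, cone] <;> field_simp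
  · refine ⟨3, X 1 ^ 2 * X 3, ![X 0 * X 1, X 2 * X 3, X 3 ^ 2, X 1 ^ 3 * X 3], ?_, ?_⟩
    · simp [hy, hw]
    · intro x' _ hg
      have hg' : x' 1 ≠ 0 ∧ x' 3 ≠ 0 := by simpa using hg
      obtain ⟨hg1, hg2⟩ := hg'
      funext j
      rw [hmap_phi, Fin.prod_univ_four]
      fin_cases j <;> simp [rayN, ray, cone] <;> field_simp

theorem h_bij' (x : Fin 4 → ℂ) (hx : ff x ≠ 0) : ∃! y, hmap y = x := by
  obtain ⟨i, g, P, hg, h⟩ := h_inv' x hx
  refine ⟨_, h x hx hg, ?_⟩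
  intro y hy
  have h1 : hmap y = hmap (phi i fun k => eval x (P k) / eval x g) := by
    rw [hy, h x hx hg]
  refine h_unique ?_ h1
  rwa [hy]

end TV
end HoloConj
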