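import Pool.Agent.Lib.MP_ed311f_ag.TV.Map

/-!
# The components of the total transform
-/

open Topology MvPolynomial

namespace HoloConj
namespace TV

/-! ### The strict transform -/

/-- the strict transform -/
def strict : Set Pt :=
  {y | ∀ j₀, (∀ ρ ∈ y.Z, cexp j₀ ρ = 0) → ∑ j, y.x (expo j - expo j₀) = 0}

theorem newton' (σ : Fin 48) : ∃ j, ∀ k, cexp j (cone σ k) = 0 := by
  obtain ⟨j, hj⟩ := newton σ
  refine ⟨j, fun k => ?_⟩
  have h1 := cexp_eq j (cone σ k)
  rw [hj k, sub_self] at h1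
  exact_mod_cast h1

theorem gpoly_eq {σ : Fin 48} {t : C4} {j₀ : Fin 4} (h : ∀ ρ ∈ zer σ t, cexp j₀ ρ = 0) :
    eval t (gpoly σ) = (∏ k, t k ^ cexp j₀ (cone σ k)) * ∑ j, mon σ t (expo j - expo j₀) := by
  rw [eval_gpoly, Finset.mul_sum]
  refine Finset.sum_congr rfl fun j _ => ?_
  unfold mon
  rw [← Finset.prod_mul_distrib]
  refine Finset.prod_congr rfl fun k _ => ?_
  have h1 : pair (expo j - expo j₀) (ray (cone σ k)) =
      (cexp j (cone σ k) : ℤ) - (cexp j₀ (cone σ k) : ℤ) := by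
    rw [cexp_eq, cexp_eq]
    simp only [pair, Pi.sub_apply]
    ring
  rw [h1]
  by_cases hk : t k = 0
  · rw [h (cone σ k) ⟨k, rfl, hk⟩]
    simp
  · rw [← zpow_natCast, ← zpow_natCast, ← zpow_add₀ hk]
    congr 1
    ring

theorem mem_strict {σ : Fin 48} {t : C4} : phi σ t ∈ strict ↔ eval t (gpoly σ) = 0 := by
  constructor
  · intro h
    obtain ⟨j, hj⟩ := newton' σ
    have hj' : ∀ ρ ∈ zer σ t, cexp j ρ = 0 := by
      rintro ρ ⟨k, rfl, -⟩
      exact hj k
    rw [gpoly_eq hj']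
    have := h j hj'
    rw [phi_x] at this
    rw [this, mul_zero]
  · intro h j₀ hj₀
    rw [gpoly_eq hj₀] at h
    rcases mul_eq_zero.1 h with h | h
    · exfalso
      rw [Finset.prod_eq_zero_iff] at h
      obtain ⟨k, -, hk⟩ := h
      by_cases htk : t k = 0
      · rw [hj₀ (cone σ k) ⟨k, rfl, htk⟩] at hk
        simp at hk
      · exact pow_ne_zero _ htk hk
    · exact h

/-! ### Transversality -/

theorem nc (σ : Fin 48) (t : C4) (h : eval t (gpoly σ) = 0) :
    ∃ j, t j ≠ 0 ∧ eval t (pderiv j (gpoly σ)) ≠ 0 := by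
  by_contra hcon
  push Not at hcon
  have h0 : ∀ j, t j * eval t (pderiv j (gpoly σ)) = 0 := by
    intro j
    by_cases hj : t j = 0
    · rw [hj, zero_mul]
    · rw [hcon j hj, mul_zero]
  obtain ⟨i₀, hi₀⟩ := newton' σ
  let m : Fin 4 → ℂ := fun i => ∏ k, t k ^ cexp i (cone σ k)
  have hm0 : m i₀ = 1 := by
    simp only [m, hi₀]
    simp
  have hsum : m 0 + m 1 + m 2 + m 3 = 0 := by
    rw [eval_gpoly, Fin.sum_univ_four] at h
    exact h
  have hc : ∀ j, ∑ i, (cexp i (cone σ j) : ℂ) * m i = 0 := by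
    intro j
    rw [← h0 j]
    have h1 : X j * pderiv j (gpoly σ) =
        ∑ i, C (cexp i (cone σ j) : ℂ) * mpol fun k => cexp i (cone σ k) := by
      unfold gpoly
      rw [map_sum, Finset.mul_sum]
      exact Finset.sum_congr rfl fun i _ => X_mul_pderiv_mpol (fun k => cexp i (cone σ k)) j
    have h2 := congrArg (eval t) h1
    rw [map_mul, eval_X, map_sum] at h2
    rw [h2]
    refine Finset.sum_congr rfl fun i _ => ?_
    rw [map_mul, eval_C, eval_mpol]
  have hp : ∀ j, ∑ i, ((pair (expo i) (ray (cone σ j)) : ℤ) : ℂ) * m i = 0 := by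
    intro j
    have h1 := hc j
    have h2 : ∀ i, ((pair (expo i) (ray (cone σ j)) : ℤ) : ℂ) =
        (cexp i (cone σ j) : ℂ) + (rN (cone σ j) : ℂ) := by
      intro i
      have := cexp_eq i (cone σ j)
      have h3 : pair (expo i) (ray (cone σ j)) = (cexp i (cone σ j) : ℤ) + (rN (cone σ j) : ℤ) := by
        omega
      rw [h3]
      push_cast
      rfl
    simp only [h2, Fin.sum_univ_four] at h1 ⊢
    linear_combination h1 + (rN (cone σ j) : ℂ) * hsum
  -- the four linear forms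
  let e : Fin 4 → ℂ := fun l => ∑ i, (expo i l : ℂ) * m i
  have he : ∀ j, e 0 * (ray (cone σ j) 0 : ℂ) + e 1 * (ray (cone σ j) 1 : ℂ) +
      e 2 * (ray (cone σ j) 2 : ℂ) + e 3 * (ray (cone σ j) 3 : ℂ) = 0 := by
    intro j
    have h1 := hp j
    simp only [Fin.sum_univ_four, pair, e] at h1 ⊢
    push_cast at h1
    linear_combination h1
  have hd : ∀ i j : Fin 4, (ray (cone σ 0) i : ℂ) * dual σ 0 j + (ray (cone σ 1) i : ℂ) * dual σ 1 j +
      (ray (cone σ 2) i : ℂ) * dual σ 2 j + (ray (cone σ 3) i : ℂ) * dual σ 3 j =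
      if i = j then 1 else 0 := by
    intro i j
    have := congrArg (Int.cast : ℤ → ℂ) (dual_ray' σ i j)
    push_cast at this
    exact this
  have he0 : ∀ l, e l = 0 := by
    intro l
    have h1 := he 0; have h2 := he 1; have h3 := he 2; have h4 := he 3
    have d0 := hd 0 l; have d1 := hd 1 l; have d2 := hd 2 l; have d3 := hd 3 l
    have key : e l = e 0 * (if (0 : Fin 4) = l then 1 else 0) +
        e 1 * (if (1 : Fin 4) = l then 1 else 0) + e 2 * (if (2 : Fin 4) = l then 1 else 0) +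
        e 3 * (if (3 : Fin 4) = l then 1 else 0) := by
      fin_cases l <;> simp
    rw [key, ← d0, ← d1, ← d2, ← d3]
    linear_combination (dual σ 0 l : ℂ) * h1 + (dual σ 1 l : ℂ) * h2 + (dual σ 2 l : ℂ) * h3 +
      (dual σ 3 l : ℂ) * h4
  have e0 := he0 0
  have e1 := he0 1
  have e2 := he0 2
  have e3 := he0 3
  simp only [e, Fin.sum_univ_four] at e0 e1 e2 e3
  simp [expo] at e0 e1 e2 e3
  have e5 : m 3 = 0 := by
    linear_combination (1 / 3 : ℂ) * e1 - (1 / 3 : ℂ) * e3 - (1 / 3 : ℂ) * e0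
  have e6 : m 2 = 0 := by linear_combination hsum - e0 - e2 - e5
  have : m i₀ = 0 := by
    fin_cases i₀
    · exact e0
    · exact e2
    · exact e6
    · exact e5
  rw [hm0] at this
  exact one_ne_zero this

/-! ### Components -/

/-- index set of the components: the strict transform (`none`), and the rays with `N > 0`. -/
abbrev JJ : Type := Option {ρ : Fin 18 // 0 < rN ρ}

/-- the components -/
def comp : JJ → Set Pt
  | none => strict
  | some ρ => {y | ρ.1 ∈ y.Z}

/-- multiplicities -/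
def NN : JJ → ℕ
  | none => 1
  | some ρ => rN ρ.1

/-- log discrepancies -/
def nunu : JJ → ℕ
  | none => 1
  | some ρ => rnu ρ.1

theorem NN_pos : ∀ j, 0 < NN j
  | none => Nat.one_pos
  | some ρ => ρ.2

theorem nunu_pos : ∀ j, 0 < nunu j
  | none => Nat.one_pos
  | some ρ => rnu_pos ρ.1

/-- the divisor of a ray -/
def divi (ρ : Fin 18) : Set Pt := {y | ρ ∈ y.Z}

theorem mem_divi {σ : Fin 48} {t : C4} {ρ : Fin 18} :
    phi σ t ∈ divi ρ ↔ ∃ k, cone σ k = ρ ∧ t k = 0 := Iff.rfl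

theorem cone_mem_divi {σ : Fin 48} {t : C4} {k : Fin 4} :
    phi σ t ∈ divi (cone σ k) ↔ t k = 0 := cone_mem_zer

theorem zariski_strict : toricVariety.IsZariskiClosed strict := by
  intro (σ : Fin 48)
  refine ⟨{gpoly σ}, fun t => ?_⟩
  simp only [Set.mem_singleton_iff, forall_eq]
  exact mem_strict

theorem zariski_divi (ρ : Fin 18) : toricVariety.IsZariskiClosed (divi ρ) := by
  classical
  intro (σ : Fin 48)
  refine ⟨{∏ k, if cone σ k = ρ then X k else 1}, fun t => ?_⟩
  simp only [Set.mem_singleton_iff, forall_eq]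
  rw [map_prod, Finset.prod_eq_zero_iff]
  change (∃ k, cone σ k = ρ ∧ t k = 0) ↔ _
  constructor
  · rintro ⟨k, hk, h⟩
    exact ⟨k, Finset.mem_univ _, by rw [if_pos hk, eval_X, h]⟩
  · rintro ⟨k, -, h⟩
    by_cases hk : cone σ k = ρ
    · rw [if_pos hk, eval_X] at h
      exact ⟨k, hk, h⟩
    · rw [if_neg hk] at h
      simp at h

theorem zariski_comp : ∀ j, toricVariety.IsZariskiClosed (comp j)
  | none => zariski_strict
  | some ρ => zariski_divi ρ.1

theorem iUnion_comp (y : Pt) : ff (hmap y) = 0 ↔ ∃ j, y ∈ comp j := by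
  obtain ⟨σ, t, rfl⟩ := exists_phi y
  rw [ff_hmap, mul_eq_zero, Finset.prod_eq_zero_iff]
  constructor
  · rintro (⟨k, -, hk⟩ | h)
    · have hk0 : t k = 0 := by
        by_contra hne
        exact pow_ne_zero _ hne hk
      have hN : 0 < rN (cone σ k) := by
        by_contra hne
        have : rN (cone σ k) = 0 := by omega
        rw [this] at hk
        simp at hk
      exact ⟨some ⟨cone σ k, hN⟩, ⟨k, rfl, hk0⟩⟩
    · exact ⟨none, mem_strict.2 h⟩
  · rintro ⟨_ | ρ, h⟩
    · exact Or.inr (mem_strict.1 h)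
    · obtain ⟨k, hk, hk0⟩ := h
      refine Or.inl ⟨k, Finset.mem_univ _, ?_⟩
      rw [hk0, hk, zero_pow ρ.2.ne']

theorem exists_cone_of_ray : ∀ ρ : Fin 18, ∃ σ k, cone σ k = ρ := by decide +kernel

theorem gpoly_ten (t : C4) : eval t (gpoly 10) = 1 + t 1 + t 2 + t 0 ^ 2 * t 1 * t 2 := by
  rw [eval_gpoly, Fin.sum_univ_four]
  simp only [Fin.prod_univ_four]
  simp [cexp, cone, pair, expo, ray, rN]
  ring

theorem comp_injective : Function.Injective comp := by
  have key1 : ∀ ρ : Fin 18, strict ≠ divi ρ := by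
    intro ρ h
    have h1 : phi 10 ![1, 1, -1, 1] ∈ strict := by
      rw [mem_strict, gpoly_ten]
      simp
    rw [h] at h1
    obtain ⟨k, -, hk⟩ := h1
    fin_cases k <;> simp at hk
  have key2 : ∀ ρ ρ' : Fin 18, divi ρ = divi ρ' → ρ = ρ' := by
    intro ρ ρ' h
    obtain ⟨σ, k, rfl⟩ := exists_cone_of_ray ρ
    have h1 : phi σ (Function.update (fun _ => 1) k 0) ∈ divi (cone σ k) :=
      cone_mem_divi.2 (by simp)
    rw [h] at h1
    obtain ⟨l, hl, hl0⟩ := h1
    by_cases hlk : l = k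
    · rw [← hl, hlk]
    · rw [Function.update_of_ne hlk] at hl0
      exact absurd hl0 one_ne_zero
  rintro (_ | ρ) (_ | ρ') h
  · rfl
  · exact absurd h (key1 ρ'.1)
  · exact absurd h.symm (key1 ρ.1)
  · exact congrArg some (Subtype.ext (key2 _ _ h))

end TV
end HoloConj
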