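import Pool.Agent.Lib.MP_ed311f_ag.TV.Strata

/-!
# `ToricStatement`
-/

open Topology

namespace HoloConj
namespace TV

theorem st1 : res.stratum ({cr} : Finset JJ) = strat [7] :=
  stratum_eq (by decide) (by decide +kernel)

theorem st2 : res.stratum ({cr, crz} : Finset JJ) = strat [7, 10] :=
  stratum_eq (by decide) (by decide +kernel)

theorem st3 : res.stratum ({cr, cm} : Finset JJ) = strat [7, 9] :=
  stratum_eq (by decide) (by decide +kernel)

theorem st4 : res.stratum ({cr, cq} : Finset JJ) = strat [7, 14] :=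
  stratum_eq (by decide) (by decide +kernel)

theorem st5 : res.stratum ({cr, cm, cq} : Finset JJ) = strat [7, 9, 14] :=
  stratum_eq (by decide) (by decide +kernel)

theorem four_dvd : ∀ ρ : Fin 18, 0 < rN ρ → 4 ∣ rN ρ → ρ = 7 ∨ ρ = 9 ∨ ρ = 10 ∨ ρ = 14 ∨ ρ = 17 := by
  decide +kernel

theorem NN_ne : ∀ j : JJ, 4 ∣ NN j → j ≠ cr → NN j ≠ nunu j
  | none => by decide
  | some ρ => by
    obtain ⟨ρ, hρ⟩ := ρ
    revert hρ
    revert ρ
    decide +kernel

theorem incident : ∀ σ : Fin 48, (∃ k, cone σ k = 7) →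
    (¬ ∃ k, cone σ k = 17) ∧ ((∃ k, cone σ k = 10) → (¬ ∃ k, cone σ k = 9) ∧
      ¬ ∃ k, cone σ k = 14) := by
  decide +kernel

theorem empty_strata (I : Finset JJ) (hr : cr ∈ I) (h4 : ∀ i ∈ I, 4 ∣ NN i) (h1 : I ≠ {cr})
    (h2 : I ≠ {cr, crz}) (h3 : I ≠ {cr, cm}) (h4' : I ≠ {cr, cq}) (h5 : I ≠ {cr, cm, cq}) :
    IsEmpty (res.stratum I) := by
  refine ⟨?_⟩
  rintro ⟨y, hy⟩
  obtain ⟨σ, t, rfl⟩ := exists_phi y
  have hc : ∀ ρ : {ρ : Fin 18 // 0 < rN ρ}, some ρ ∈ I → ∃ k, cone σ k = ρ.1 := by
    intro ρ hρ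
    obtain ⟨k, hk, -⟩ := (hy (some ρ)).2 hρ
    exact ⟨k, hk⟩
  have h7 := hc _ hr
  obtain ⟨h17, h10⟩ := incident σ h7
  have hn : none ∉ I := by
    intro h
    have := h4 none h
    revert this
    decide
  have n17 : ∀ h, (some ⟨17, h⟩ : JJ) ∉ I := fun h h' => h17 (hc _ h')
  have hmem : ∀ j ∈ I, j = cr ∨ j = crz ∨ j = cm ∨ j = cq := by
    rintro (_ | ⟨ρ, hρ⟩) hj
    · exact absurd hj hn
    · rcases four_dvd ρ hρ (h4 _ hj) with rfl | rfl | rfl | rfl | rfl
      · exact Or.inl rfl
      · exact Or.inr (Or.inr (Or.inl rfl))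
      · exact Or.inr (Or.inl rfl)
      · exact Or.inr (Or.inr (Or.inr rfl))
      · exact absurd hj (n17 _)
  by_cases a : crz ∈ I
  · have h10' := h10 (hc _ a)
    have b : cm ∉ I := fun h => h10'.1 (hc _ h)
    have c : cq ∉ I := fun h => h10'.2 (hc _ h)
    apply h2
    ext j
    rw [Finset.mem_insert, Finset.mem_singleton]
    constructor
    · intro hj
      rcases hmem j hj with h | h | rfl | rfl
      · exact Or.inl h
      · exact Or.inr h
      · exact absurd hj b
      · exact absurd hj c
    · rintro (rfl | rfl)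
      · exact hr
      · exact a
  · by_cases b : cm ∈ I
    · by_cases c : cq ∈ I
      · apply h5
        ext j
        rw [Finset.mem_insert, Finset.mem_insert, Finset.mem_singleton]
        constructor
        · intro hj
          rcases hmem j hj with h | rfl | h | h
          · exact Or.inl h
          · exact absurd hj a
          · exact Or.inr (Or.inl h)
          · exact Or.inr (Or.inr h)
        · rintro (rfl | rfl | rfl)
          · exact hr
          · exact b
          · exact c
      · apply h3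
        ext j
        rw [Finset.mem_insert, Finset.mem_singleton]
        constructor
        · intro hj
          rcases hmem j hj with h | rfl | h | rfl
          · exact Or.inl h
          · exact absurd hj a
          · exact Or.inr h
          · exact absurd hj c
        · rintro (rfl | rfl)
          · exact hr
          · exact b
    · by_cases c : cq ∈ I
      · apply h4'
        ext j
        rw [Finset.mem_insert, Finset.mem_singleton]
        constructor
        · intro hj
          rcases hmem j hj with h | rfl | rfl | h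
          · exact Or.inl h
          · exact absurd hj a
          · exact absurd hj b
          · exact Or.inr h
        · rintro (rfl | rfl)
          · exact hr
          · exact c
      · apply h1
        ext j
        rw [Finset.mem_singleton]
        constructor
        · intro hj
          rcases hmem j hj with h | rfl | rfl | rfl
          · exact h
          · exact absurd hj a
          · exact absurd hj b
          · exact absurd hj c
        · rintro rfl
          exact hr

theorem cr_ne : cr ≠ crz ∧ cr ≠ cm ∧ cr ≠ cq ∧ crz ≠ cm ∧ crz ≠ cq ∧ cm ≠ cq := by decide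

theorem homeoS1 : Nonempty (res.stratum ({cr} : Finset JJ) ≃ₜ S1) := by
  rw [st1]
  exact ⟨(chartHomeo 8 _ range1).trans homeo1⟩

theorem homeoS2 : Nonempty (res.stratum ({cr, crz} : Finset JJ) ≃ₜ S2) := by
  rw [st2]
  exact ⟨(chartHomeo 42 _ range2).trans homeo2⟩

theorem homeoS3 : Nonempty (res.stratum ({cr, cm} : Finset JJ) ≃ₜ S3) := by
  rw [st3]
  exact ⟨(chartHomeo 8 _ range3).trans homeo3⟩

theorem homeoS4 : Nonempty (res.stratum ({cr, cq} : Finset JJ) ≃ₜ S4) := by
  rw [st4]
  exact ⟨(chartHomeo 41 _ range4).trans homeo4⟩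

theorem homeoS5 : Nonempty (res.stratum ({cr, cm, cq} : Finset JJ) ≃ₜ S5) := by
  rw [st5]
  exact ⟨(chartHomeo 41 _ range5).trans homeo5⟩

theorem toric_statement : ToricStatement :=
  ⟨res, cr, crz, cm, cq, cr_ne.1, cr_ne.2.1, cr_ne.2.2.1, cr_ne.2.2.2.1, cr_ne.2.2.2.2.1,
    cr_ne.2.2.2.2.2, ⟨rfl, rfl⟩, ⟨rfl, rfl⟩, ⟨rfl, rfl⟩, ⟨rfl, rfl⟩, NN_ne, homeoS1, homeoS2,
    homeoS3, homeoS4, homeoS5, empty_strata⟩

end TV
end HoloConj
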