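import Pool.Agent.Lib.MP_ed311f_ag.TV.Map

/-!
# `h` is proper
-/

open Topology

namespace HoloConj
namespace TV

/-! ### The fan covers the orthant -/

/-- pairing over a ring -/
def pairR {R : Type} [CommRing R] (m : Fin 4 → ℤ) (v : Fin 4 → R) : R :=
  (m 0 : R) * v 0 + (m 1 : R) * v 1 + (m 2 : R) * v 2 + (m 3 : R) * v 3

theorem pairR_expand {R : Type} [CommRing R] (σ : Fin 48) (m : Fin 4 → ℤ) (v : Fin 4 → R) :
    ∑ k, pairR (dual σ k) v * (pair m (ray (cone σ k)) : ℤ) = pairR m v := by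
  have h' := dual_ray' σ
  have h : ∀ i j : Fin 4, (ray (cone σ 0) i : R) * dual σ 0 j + (ray (cone σ 1) i : R) * dual σ 1 j +
      (ray (cone σ 2) i : R) * dual σ 2 j + (ray (cone σ 3) i : R) * dual σ 3 j =
      if i = j then 1 else 0 := by
    intro i j
    have := congrArg (Int.cast : ℤ → R) (h' i j)
    push_cast at this
    exact this
  have h00 := h 0 0; have h01 := h 0 1; have h02 := h 0 2; have h03 := h 0 3
  have h10 := h 1 0; have h11 := h 1 1; have h12 := h 1 2; have h13 := h 1 3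
  have h20 := h 2 0; have h21 := h 2 1; have h22 := h 2 2; have h23 := h 2 3
  have h30 := h 3 0; have h31 := h 3 1; have h32 := h 3 2; have h33 := h 3 3
  simp only [Fin.isValue, if_true, Fin.reduceEq, if_false] at *
  rw [Fin.sum_univ_four]
  simp only [pair, pairR]
  push_cast
  linear_combination m 0 * v 0 * h00 + m 0 * v 1 * h01 + m 0 * v 2 * h02 + m 0 * v 3 * h03 +
    m 1 * v 0 * h10 + m 1 * v 1 * h11 + m 1 * v 2 * h12 + m 1 * v 3 * h13 +
    m 2 * v 0 * h20 + m 2 * v 1 * h21 + m 2 * v 2 * h22 + m 2 * v 3 * h23 +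
    m 3 * v 0 * h30 + m 3 * v 1 * h31 + m 3 * v 2 * h32 + m 3 * v 3 * h33

theorem cone_inj : ∀ σ τ : Fin 48, (∀ l, ∃ l', cone τ l' = cone σ l) → τ = σ := by
  decide +kernel

theorem exists_cone (n : Fin 4 → ℝ) (hn : ∀ i, 0 ≤ n i) :
    ∃ σ : Fin 48, ∀ k, 0 ≤ pairR (dual σ k) n := by
  obtain ⟨σ, hσ⟩ := Finite.exists_min fun σ : Fin 48 => pairR (lin σ) n
  refine ⟨σ, ?_⟩
  by_contra hcon
  push Not at hcon
  obtain ⟨k, hk⟩ := hcon
  rcases wall σ k with ⟨i, hi⟩ | ⟨τ, hτ, hl⟩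
  · have : pairR (dual σ k) n = n i := by
      unfold pairR
      simp only [hi]
      fin_cases i <;> simp
    rw [this] at hk
    exact absurd (hn i) (not_le.2 hk)
  · have hk' : ∀ l, cone τ l ≠ cone σ k := by
      intro l' hl'
      apply hτ
      apply cone_inj
      intro l
      by_cases h : l = k
      · rw [h]; exact ⟨l', hl'⟩
      · exact hl l h
    have h1 := pairR_expand σ (lin τ - lin σ) n
    rw [Finset.sum_eq_single k] at h1
    · have h2 : pair (lin τ - lin σ) (ray (cone σ k)) =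
          pair (lin τ) (ray (cone σ k)) - supp (cone σ k) := by
        rw [← lin_eq_supp σ k]
        simp only [pair, Pi.sub_apply]
        ring
      have h3 := supp_strict τ (cone σ k) hk'
      have h4 : (0 : ℝ) < (pair (lin τ - lin σ) (ray (cone σ k)) : ℤ) := by
        rw [h2]
        exact_mod_cast sub_pos.2 h3
      have h5 : pairR (lin τ - lin σ) n = pairR (lin τ) n - pairR (lin σ) n := by
        simp only [pairR, Pi.sub_apply]
        push_cast
        ring
      have h6 := mul_neg_of_neg_of_pos hk h4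
      have h7 := hσ τ
      rw [h1, h5] at h6
      linarith
    · intro l _ hlk
      obtain ⟨l', hl'⟩ := hl l hlk
      have : pair (lin τ - lin σ) (ray (cone σ l)) = 0 := by
        have h2 : pair (lin τ - lin σ) (ray (cone σ l)) =
            pair (lin τ) (ray (cone σ l)) - pair (lin σ) (ray (cone σ l)) := by
          simp only [pair, Pi.sub_apply]
          ring
        rw [h2, lin_eq_supp, ← hl', lin_eq_supp, sub_self]
      rw [this]
      simp
    · simp

/-! ### The torus -/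

/-- the open torus -/
def torus : Set Pt := {y | y.Z = ∅}

theorem mem_torus {σ : Fin 48} {t : C4} : phi σ t ∈ torus ↔ ∀ k, t k ≠ 0 := by
  change zer σ t = ∅ ↔ _
  rw [Set.eq_empty_iff_forall_notMem]
  constructor
  · intro h k hk
    exact h (cone σ k) ⟨k, rfl, hk⟩
  · rintro h ρ ⟨k, -, hk⟩
    exact h k hk

theorem dense_ne_zero : Dense {t : C4 | ∀ k, t k ≠ 0} := by
  have : {t : C4 | ∀ k, t k ≠ 0} = Set.univ.pi fun _ => ({0} : Set ℂ)ᶜ := by
    ext t
    simp [Set.mem_pi]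
  rw [this]
  exact dense_pi _ fun k _ => dense_compl_singleton 0

theorem dense_torus : Dense torus := by
  intro y
  obtain ⟨σ, t, rfl⟩ := exists_phi y
  have h1 : t ∈ closure {t : C4 | ∀ k, t k ≠ 0} := dense_ne_zero t
  have h2 := image_closure_subset_closure_image (continuous_phi σ) (Set.mem_image_of_mem (phi σ) h1)
  refine closure_mono ?_ h2
  rintro _ ⟨u, hu, rfl⟩
  exact mem_torus.2 hu

theorem dual_bound : ∀ (σ : Fin 48) (k : Fin 4),
    dual σ k 0 + dual σ k 1 + dual σ k 2 + dual σ k 3 ≤ 12 := by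
  decide +kernel

theorem log_norm_mon (σ : Fin 48) (t : C4) (ht : ∀ k, t k ≠ 0) (m : Fin 4 → ℤ) :
    Real.log ‖mon σ t m‖ = ∑ k, (pair m (ray (cone σ k)) : ℝ) * Real.log ‖t k‖ := by
  unfold mon
  rw [norm_prod, Real.log_prod (fun k _ => by
    rw [norm_zpow]; exact zpow_ne_zero _ (norm_ne_zero_iff.2 (ht k)))]
  refine Finset.sum_congr rfl fun k _ => ?_
  rw [norm_zpow, Real.log_zpow]

theorem log_norm_mon_eq (σ : Fin 48) (t : C4) (ht : ∀ k, t k ≠ 0) (m : Fin 4 → ℤ) :
    Real.log ‖mon σ t m‖ = pairR m fun j => Real.log ‖hmap (phi σ t) j‖ := by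
  have h : ∀ j, Real.log ‖hmap (phi σ t) j‖ =
      ∑ k, (ray (cone σ k) j : ℝ) * Real.log ‖t k‖ := by
    intro j
    change Real.log ‖mon σ t _‖ = _
    rw [log_norm_mon σ t ht]
    simp only [pair_single]
  rw [log_norm_mon σ t ht]
  unfold pairR
  simp only [h, Fin.sum_univ_four, pair]
  push_cast
  ring

theorem exists_bounded_coord (L : ℝ) (hL : 0 ≤ L) {y : Pt} (hy : y ∈ torus)
    (hb : ∀ j, ‖hmap y j‖ ≤ Real.exp L) :
    ∃ σ t, phi σ t = y ∧ ∀ k, ‖t k‖ ≤ Real.exp (12 * L) := by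
  obtain ⟨σ₀, t₀, rfl⟩ := exists_phi y
  have ht₀ := mem_torus.1 hy
  have hmon : ∀ m, mon σ₀ t₀ m ≠ 0 := by
    intro m
    unfold mon
    exact Finset.prod_ne_zero_iff.2 fun k _ => zpow_ne_zero _ (ht₀ k)
  set p := hmap (phi σ₀ t₀) with hp
  have hp0 : ∀ j, p j ≠ 0 := fun j => hmon _
  have hlog : ∀ j, Real.log ‖p j‖ ≤ L := fun j =>
    (Real.log_le_iff_le_exp (norm_pos_iff.2 (hp0 j))).2 (hb j)
  obtain ⟨σ, hσ⟩ := exists_cone (fun j => L - Real.log ‖p j‖) fun j => sub_nonneg.2 (hlog j)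
  have hg : good σ₀ σ t₀ := good_of_ne_zero ht₀
  refine ⟨σ, trans σ₀ σ t₀, (phi_eq_iff.2 ⟨hg, rfl⟩).symm, fun k => ?_⟩
  have h1 := hσ k
  have h2 : Real.log ‖trans σ₀ σ t₀ k‖ = pairR (dual σ k) fun j => Real.log ‖p j‖ :=
    log_norm_mon_eq σ₀ t₀ ht₀ _
  have h3 : pairR (dual σ k) (fun j => L - Real.log ‖p j‖) =
      L * ((dual σ k 0 + dual σ k 1 + dual σ k 2 + dual σ k 3 : ℤ) : ℝ) -
      pairR (dual σ k) fun j => Real.log ‖p j‖ := by
    simp only [pairR]
    push_cast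
    ring
  have h4 : ((dual σ k 0 + dual σ k 1 + dual σ k 2 + dual σ k 3 : ℤ) : ℝ) ≤ 12 := by
    exact_mod_cast dual_bound σ k
  have h5 : L * ((dual σ k 0 + dual σ k 1 + dual σ k 2 + dual σ k 3 : ℤ) : ℝ) ≤ L * 12 :=
    mul_le_mul_of_nonneg_left h4 hL
  have h6 : Real.log ‖trans σ₀ σ t₀ k‖ ≤ 12 * L := by
    rw [h2]
    linarith
  exact (Real.log_le_iff_le_exp (norm_pos_iff.2 (hmon _))).1 h6

theorem isProperMap_hmap : IsProperMap hmap := by
  rw [isProperMap_iff_isCompact_preimage]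
  refine ⟨continuous_hmap, fun K hK => ?_⟩
  obtain ⟨R, hR⟩ := hK.isBounded.subset_ball (0 : C4)
  obtain ⟨L, hL, hRL⟩ : ∃ L : ℝ, 0 ≤ L ∧ R ≤ Real.exp L := by
    refine ⟨max R 0, le_max_right _ _, ?_⟩
    have := Real.add_one_le_exp (max R 0)
    linarith [le_max_left R 0]
  let K' : Set Pt := ⋃ σ, phi σ '' Metric.closedBall 0 (Real.exp (12 * L))
  have hK' : IsCompact K' :=
    isCompact_iUnion fun σ => (isCompact_closedBall _ _).image (continuous_phi σ)
  have hsub : hmap ⁻¹' Metric.ball 0 R ⊆ K' := by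
    have h1 := dense_torus.open_subset_closure_inter
      (Metric.isOpen_ball.preimage continuous_hmap : IsOpen (hmap ⁻¹' Metric.ball 0 R))
    refine h1.trans ?_
    refine closure_minimal ?_ hK'.isClosed
    rintro y ⟨hy, hyT⟩
    have hb : ∀ j, ‖hmap y j‖ ≤ Real.exp L := by
      intro j
      have h2 : ‖hmap y‖ < R := by simpa using hy
      exact (norm_le_pi_norm _ j).trans (h2.le.trans hRL)
    obtain ⟨σ, t, rfl, ht⟩ := exists_bounded_coord L hL hyT hb
    refine Set.mem_iUnion.2 ⟨σ, t, ?_, rfl⟩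
    rw [mem_closedBall_zero_iff, pi_norm_le_iff_of_nonneg (Real.exp_pos _).le]
    exact ht
  exact hK'.of_isClosed_subset (hK.isClosed.preimage continuous_hmap)
    ((Set.preimage_mono hR).trans hsub)

end TV
end HoloConj
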