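import Pool.Agent.Lib.MP_ed311f_ag.TV.Div
import Pool.Agent.Lib.MP_ed311f_ag.TV.Proper

/-!
# Irreducibility of the components
-/

open Topology MvPolynomial

namespace HoloConj
namespace TV

theorem isClosed_of_zariski {B : Set Pt} (hB : toricVariety.IsZariskiClosed B) : IsClosed B := by
  rw [isClosed_iff]
  intro σ
  obtain ⟨S, hS⟩ := hB σ
  have : phi σ ⁻¹' B = ⋂ p ∈ S, {u : C4 | eval u p = 0} := by
    ext u
    simp only [Set.mem_iInter]
    exact hS u
  rw [this]
  refine isClosed_biInter fun p _ => ?_
  exact isClosed_eq (MvPolynomial.continuous_eval p) continuous_const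

theorem clear_denom {n : ℕ} (D : MvPolynomial (Fin n) ℂ) (Q : Fin 4 → MvPolynomial (Fin n) ℂ)
    (p : MvPolynomial (Fin 4) ℂ) : ∃ (N : ℕ) (q : MvPolynomial (Fin n) ℂ), ∀ u : Fin n → ℂ,
    eval u D ≠ 0 → eval (fun k => eval u (Q k) / eval u D) p * eval u D ^ N = eval u q := by
  induction p using MvPolynomial.induction_on with
  | C a => exact ⟨0, C a, fun u _ => by simp⟩
  | add p q hp hq =>
    obtain ⟨N, p', hp⟩ := hp
    obtain ⟨M, q', hq⟩ := hq
    refine ⟨N + M, p' * D ^ M + q' * D ^ N, fun u hu => ?_⟩
    have h1 := hp u hu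
    have h2 := hq u hu
    simp only [map_add, map_mul, map_pow]
    rw [← h1, ← h2]
    ring
  | mul_X p k hp =>
    obtain ⟨N, p', hp⟩ := hp
    refine ⟨N + 1, p' * Q k, fun u hu => ?_⟩
    have h1 := hp u hu
    have h2 : eval u (Q k) / eval u D * eval u D = eval u (Q k) := div_mul_cancel₀ _ hu
    simp only [map_mul, eval_X]
    rw [← h1, pow_succ]
    linear_combination (eval (fun k => eval u (Q k) / eval u D) p * eval u D ^ N) * h2

theorem irred_of_param {n : ℕ} {A : Set Pt} (hA : toricVariety.IsZariskiClosed A) (σ : Fin 48)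
    (D : MvPolynomial (Fin n) ℂ) (hD : D ≠ 0) (Q : Fin 4 → MvPolynomial (Fin n) ℂ)
    (h1 : ∀ u, eval u D ≠ 0 → phi σ (fun k => eval u (Q k) / eval u D) ∈ A)
    (h2 : A ⊆ closure {y | ∃ u, eval u D ≠ 0 ∧ phi σ (fun k => eval u (Q k) / eval u D) = y}) :
    toricVariety.IsIrred A := by
  have hD' : ∃ u, eval u D ≠ 0 := by
    by_contra hcon
    push Not at hcon
    exact hD (MvPolynomial.funext fun u => by rw [hcon u, map_zero])
  refine ⟨hA, ?_, ?_⟩
  · obtain ⟨u, hu⟩ := hD'
    exact ⟨_, h1 u hu⟩
  · intro B B' hB hB' hAB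
    by_contra hcon
    push Not at hcon
    obtain ⟨hc1, hc2⟩ := hcon
    have key : ∀ B : Set Pt, toricVariety.IsZariskiClosed B → ¬ A ⊆ B →
        ∃ (q : MvPolynomial (Fin n) ℂ), q ≠ 0 ∧ ∀ u, eval u D ≠ 0 →
          phi σ (fun k => eval u (Q k) / eval u D) ∈ B → eval u q = 0 := by
      intro B hB hAB
      have h3 : ∃ u, eval u D ≠ 0 ∧ phi σ (fun k => eval u (Q k) / eval u D) ∉ B := by
        by_contra hcon
        push Not at hcon
        apply hAB
        refine h2.trans (closure_minimal ?_ (isClosed_of_zariski hB))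
        rintro y ⟨u, hu, rfl⟩
        exact hcon u hu
      obtain ⟨u, hu, huB⟩ := h3
      obtain ⟨S, hS⟩ := hB σ
      have h4 : ∃ p ∈ S, eval (fun k => eval u (Q k) / eval u D) p ≠ 0 := by
        by_contra hcon
        push Not at hcon
        exact huB ((hS _).2 hcon)
      obtain ⟨p, hpS, hp⟩ := h4
      obtain ⟨N, q, hq⟩ := clear_denom D Q p
      refine ⟨q, ?_, ?_⟩
      · rintro rfl
        have := hq u hu
        rw [map_zero] at this
        exact mul_ne_zero hp (pow_ne_zero _ hu) this
      · intro u' hu' hB'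
        rw [← hq u' hu', (hS _).1 hB' p hpS, zero_mul]
    obtain ⟨q, hq0, hq⟩ := key B hB hc1
    obtain ⟨q', hq0', hq'⟩ := key B' hB' hc2
    have h5 : q * q' * D = 0 := by
      refine MvPolynomial.funext fun u => ?_
      rw [map_zero, map_mul, map_mul]
      by_cases hu : eval u D = 0
      · rw [hu, mul_zero]
      · rcases hAB (h1 u hu) with h | h
        · rw [hq u hu h]; ring
        · rw [hq' u hu h]; ring
    rcases mul_eq_zero.1 h5 with h | h
    · rcases mul_eq_zero.1 h with h | h
      · exact hq0 h
      · exact hq0' h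
    · exact hD h

/-! ### Divisors of the rays -/

theorem irred_divi (ρ : Fin 18) : toricVariety.IsIrred (divi ρ) := by
  classical
  obtain ⟨σ, k, rfl⟩ := exists_cone_of_ray ρ
  refine irred_of_param (zariski_divi _) σ (1 : MvPolynomial (Fin 4) ℂ) one_ne_zero
    (fun l => if l = k then 0 else X l) ?_ ?_
  · intro u _
    rw [cone_mem_divi]
    simp
  · intro y hy
    obtain ⟨τ, t, rfl⟩ := exists_phi y
    obtain ⟨l, hl, hl0⟩ := mem_divi.1 hy
    let e : C4 → C4 := fun v => Function.update v l 0
    have he : Continuous e := continuous_id.update l continuous_const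
    have h1 : t ∈ closure (e '' {v | ∀ k, v k ≠ 0}) := by
      have h2 := image_closure_subset_closure_image he
        (Set.mem_image_of_mem e (dense_ne_zero t))
      have h3 : e t = t := by
        simp only [e]
        rw [← hl0, Function.update_eq_self]
      rwa [h3] at h2
    have h2 := image_closure_subset_closure_image (continuous_phi τ)
      (Set.mem_image_of_mem (phi τ) h1)
    refine closure_mono ?_ h2
    rintro _ ⟨_, ⟨v, hv, rfl⟩, rfl⟩
    have hz : ∀ l', e v l' = 0 → l' = l := by
      intro l' h
      by_contra hne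
      simp only [e] at h
      rw [Function.update_of_ne hne] at h
      exact hv l' h
    have hg : good τ σ (e v) := by
      intro l' hl' h
      have := hz l' h
      subst this
      exact hl' k hl.symm
    refine ⟨trans τ σ (e v), by simp, ?_⟩
    have h4 : (fun l' => eval (trans τ σ (e v)) (if l' = k then 0 else X l' :
        MvPolynomial (Fin 4) ℂ) / eval (trans τ σ (e v)) 1) = trans τ σ (e v) := by
      funext l'
      by_cases h : l' = k
      · rw [if_pos h, map_zero, zero_div]
        symm
        rw [trans_eq_zero_iff hg]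
        refine ⟨l, ?_, ?_⟩
        · rw [hl, h]
        · simp [e]
      · rw [if_neg h, eval_X, map_one, div_one]
    rw [h4]
    exact (phi_eq_iff.2 ⟨hg, rfl⟩).symm

/-! ### Strict differentiability -/

theorem hasStrictFDerivAt_eval (p : MvPolynomial (Fin 4) ℂ) (t : C4) :
    HasStrictFDerivAt (fun u : C4 => eval u p)
      (∑ k, eval t (pderiv k p) • (ContinuousLinearMap.proj k : C4 →L[ℂ] ℂ)) t := by
  induction p using MvPolynomial.induction_on with
  | C a =>
    simp only [eval_C]
    refine (hasStrictFDerivAt_const (𝕜 := ℂ) (E := C4) a t).congr_fderiv ?_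
    ext v
    simp
  | add p q hp hq =>
    have hfun : (fun u : C4 => eval u (p + q)) = (fun u => eval u p) + fun u => eval u q := by
      funext u
      simp
    rw [hfun]
    refine (hp.add hq).congr_fderiv ?_
    ext v
    simp [add_mul, Finset.sum_add_distrib]
  | mul_X p k hp =>
    have h1 : HasStrictFDerivAt (fun u : C4 => u k) (ContinuousLinearMap.proj k : C4 →L[ℂ] ℂ) t :=
      hasStrictFDerivAt_apply k t
    have := hp.mul h1
    simp only [map_mul, eval_X]
    refine this.congr_fderiv ?_
    ext v
    simp only [Derivation.leibniz, pderiv_X, add_apply,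
      smul_apply, sum_apply, ContinuousLinearMap.proj_apply,
      smul_eq_mul, map_add, map_mul, eval_X]
    simp only [add_mul, Finset.sum_add_distrib, Finset.mul_sum]
    congr 1
    · rw [Finset.sum_eq_single k]
      · simp
      · intro l _ hl
        simp [hl.symm]
      · simp
    · refine Finset.sum_congr rfl fun l _ => ?_
      ring

/-- A hypersurface with `∂_j g ≠ 0` is locally a graph over the other coordinates. -/
theorem exists_near {g : MvPolynomial (Fin 4) ℂ} {t : C4} {j : Fin 4} (hg : eval t g = 0)
    (hj : eval t (pderiv j g) ≠ 0) {W : Set C4} (hW : W ∈ 𝓝 t) :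
    ∀ᶠ v in 𝓝 t, ∃ u ∈ W, eval u g = 0 ∧ ∀ k, k ≠ j → u k = v k := by
  classical
  let Φ : C4 → C4 := fun u => Function.update u j (eval u g)
  let A : C4 →L[ℂ] ℂ := ∑ k, eval t (pderiv k g) • (ContinuousLinearMap.proj k : C4 →L[ℂ] ℂ)
  let Φ' : C4 →L[ℂ] C4 := ContinuousLinearMap.pi fun k =>
    if k = j then A else ContinuousLinearMap.proj k
  have hΦ : HasStrictFDerivAt Φ Φ' t := by
    rw [hasStrictFDerivAt_pi']
    intro k
    by_cases hk : k = j
    · subst hk
      have h1 : (fun u => Φ u k) = fun u => eval u g := by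
        funext u
        simp [Φ]
      rw [h1]
      refine (hasStrictFDerivAt_eval g t).congr_fderiv ?_
      ext v
      simp [Φ', A]
    · have h1 : (fun u => Φ u k) = fun u => u k := by
        funext u
        simp [Φ, hk]
      rw [h1]
      refine (hasStrictFDerivAt_apply k t).congr_fderiv ?_
      ext v
      simp [Φ', hk]
  have hsurj : Φ'.range = ⊤ := by
    rw [LinearMap.range_eq_top]
    intro w
    refine ⟨Function.update w j ((w j - A (Function.update w j 0)) / eval t (pderiv j g)), ?_⟩
    funext k
    by_cases hk : k = j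
    · subst hk
      have h1 : ∀ c : ℂ, A (Function.update w k c) = A (Function.update w k 0) +
          eval t (pderiv k g) * c := by
        intro c
        simp only [A, sum_apply, smul_apply,
          ContinuousLinearMap.proj_apply, smul_eq_mul]
        rw [← Finset.add_sum_erase _ _ (Finset.mem_univ k),
          ← Finset.add_sum_erase _ (fun i => eval t (pderiv i g) * Function.update w k 0 i)
          (Finset.mem_univ k)]
        have : ∀ i ∈ Finset.univ.erase k, eval t (pderiv i g) * Function.update w k c i =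
            eval t (pderiv i g) * Function.update w k 0 i := by
          intro i hi
          have hik := Finset.ne_of_mem_erase hi
          rw [Function.update_of_ne hik, Function.update_of_ne hik]
        rw [Finset.sum_congr rfl this]
        simp
        ring
      have h2 : Φ' (Function.update w k ((w k - A (Function.update w k 0)) /
          eval t (pderiv k g))) k = A (Function.update w k ((w k - A (Function.update w k 0)) /
          eval t (pderiv k g))) := by
        simp [Φ']
      change Φ' _ k = _
      rw [h2, h1]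
      field_simp
      ring
    · have h2 : Φ' (Function.update w j ((w j - A (Function.update w j 0)) /
          eval t (pderiv j g))) k = w k := by
        simp [Φ', hk]
      exact h2
  have hmap := hΦ.map_nhds_eq_of_surj hsurj
  have h3 : Φ '' W ∈ 𝓝 (Φ t) := by
    rw [← hmap]
    exact Filter.image_mem_map hW
  have h4 : Filter.Tendsto (fun v : C4 => Function.update v j 0) (𝓝 t) (𝓝 (Φ t)) := by
    have h5 : Continuous fun v : C4 => Function.update v j (0 : ℂ) :=
      continuous_id.update j continuous_const
    have h6 := h5.tendsto t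
    have h7 : Function.update t j 0 = Φ t := by
      simp only [Φ]
      rw [hg]
    rwa [h7] at h6
  filter_upwards [h4 h3] with v hv
  obtain ⟨u, huW, hu⟩ := hv
  refine ⟨u, huW, ?_, ?_⟩
  · have := congrFun hu j
    simpa [Φ] using this
  · intro k hk
    have := congrFun hu k
    simpa [Φ, hk] using this

/-! ### The strict transform -/

theorem strict_subset_closure : strict ⊆ closure (strict ∩ torus) := by
  intro y hy
  obtain ⟨σ, t, rfl⟩ := exists_phi y
  rw [mem_strict] at hy
  obtain ⟨j, hj0, hj⟩ := nc σ t hy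
  rw [mem_closure_iff_nhds]
  intro V hV
  have hW : phi σ ⁻¹' V ∩ {u | u j ≠ 0} ∈ 𝓝 t :=
    Filter.inter_mem ((continuous_phi σ).continuousAt hV)
      ((isOpen_ne_fun (continuous_apply j) continuous_const).mem_nhds hj0)
  have h1 := exists_near hy hj hW
  have h2 : ∃ᶠ v in 𝓝 t, ∀ k, v k ≠ 0 := mem_closure_iff_frequently.1 (dense_ne_zero t)
  obtain ⟨v, hv, u, hu, hg, huv⟩ := (h2.and_eventually h1).exists
  refine ⟨phi σ u, hu.1, mem_strict.2 hg, mem_torus.2 fun k => ?_⟩
  by_cases hk : k = j
  · rw [hk]; exact hu.2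
  · rw [huv k hk]; exact hv k

theorem gpoly_ten' : gpoly 10 = 1 + X 1 + X 2 + X 0 ^ 2 * X 1 * X 2 := by
  refine MvPolynomial.funext fun t => ?_
  rw [gpoly_ten]
  simp

theorem dense_ne_neg_one : Dense {t : C4 | t 1 ≠ -1} := by
  have : {t : C4 | t 1 ≠ -1} = ({1} : Set (Fin 4)).pi fun _ => ({-1} : Set ℂ)ᶜ := by
    ext t
    simp
  rw [this]
  exact dense_pi _ fun k _ => dense_compl_singleton _

/-- the denominator of the parametrisation of the strict transform -/
noncomputable def Dpol : MvPolynomial (Fin 4) ℂ := 1 + X 0 ^ 2 * X 1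

theorem irred_strict : toricVariety.IsIrred strict := by
  refine irred_of_param zariski_strict 10 Dpol ?_ ![X 0 * Dpol, X 1 * Dpol, -(1 + X 1), X 3 * Dpol]
    ?_ ?_
  · intro h
    have := congrArg (eval 0) h
    simp [Dpol] at this
  · intro u hu
    rw [mem_strict, gpoly_ten]
    simp only [Fin.isValue, Matrix.cons_val_zero, Matrix.cons_val_one, Matrix.cons_val, map_mul,
      map_neg, map_add, map_one, eval_X]
    rw [mul_div_cancel_right₀ _ hu, mul_div_cancel_right₀ _ hu]
    have h1 : eval u Dpol = 1 + u 0 ^ 2 * u 1 := by simp [Dpol]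
    rw [h1] at hu ⊢
    linear_combination div_mul_cancel₀ (-(1 + u 1)) hu
  · refine strict_subset_closure.trans (closure_minimal ?_ isClosed_closure)
    rintro y ⟨hy, hyT⟩
    obtain ⟨σ, t', rfl⟩ := exists_phi y
    have ht' := mem_torus.1 hyT
    obtain ⟨t, ht⟩ : phi σ t' ∈ Set.range (phi 10) := mem_range_phi.2 (good_of_ne_zero ht')
    rw [← ht] at hy hyT ⊢
    have ht0 := mem_torus.1 hyT
    rw [mem_strict] at hy
    have hj : eval t (pderiv 0 (gpoly 10)) ≠ 0 := by
      rw [gpoly_ten']
      simp [pderiv_X, ht0]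
    rw [mem_closure_iff_nhds]
    intro V hV
    have hW : phi 10 ⁻¹' V ∩ {u | u 2 ≠ 0} ∈ 𝓝 t :=
      Filter.inter_mem ((continuous_phi 10).continuousAt hV)
        ((isOpen_ne_fun (continuous_apply 2) continuous_const).mem_nhds (ht0 2))
    have h1 := exists_near hy hj hW
    have h2 : ∃ᶠ v in 𝓝 t, v 1 ≠ -1 := mem_closure_iff_frequently.1 (dense_ne_neg_one t)
    obtain ⟨v, hv, u, hu, hg, huv⟩ := (h2.and_eventually h1).exists
    have hu1 : u 1 ≠ -1 := by
      rw [huv 1 (by decide)]; exact hv
    rw [gpoly_ten] at hg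
    have hD : eval u Dpol = 1 + u 0 ^ 2 * u 1 := by simp [Dpol]
    have hD0 : eval u Dpol ≠ 0 := by
      rw [hD]
      intro h
      apply hu1
      linear_combination hg - u 2 * h
    refine ⟨phi 10 u, hu.1, u, hD0, ?_⟩
    congr 1
    funext k
    fin_cases k
    · simp [hD0]
    · simp [hD0]
    · simp only [Fin.reduceFinMk, Matrix.cons_val, map_neg, map_add, map_one, eval_X]
      rw [div_eq_iff hD0, hD]
      linear_combination -hg
    · simp [hD0]

theorem irred_comp : ∀ j, toricVariety.IsIrred (comp j)
  | none => irred_strict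
  | some ρ => irred_divi ρ.1

end TV
end HoloConj
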