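import Pool.Agent.Lib.MP_ed311f_ag.TV.Basic

/-!
# The morphism `h : Y → ℂ⁴`, the total transform of `fpoly` and the Jacobian
-/

open Topology MvPolynomial

namespace HoloConj
namespace TV

/-- monomials with natural exponents -/
noncomputable def mpol (a : Fin 4 → ℕ) : MvPolynomial (Fin 4) ℂ := ∏ k, X k ^ a k

theorem eval_mpol (a : Fin 4 → ℕ) (u : C4) : eval u (mpol a) = ∏ k, u k ^ a k := by
  simp [mpol]

theorem mpol_eq (a : Fin 4 → ℕ) : mpol a = monomial (Finsupp.equivFunOnFinite.symm a) 1 := by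
  rw [mpol, monomial_eq, C_1, one_mul, Finsupp.prod_fintype]
  · simp
  · simp

theorem X_mul_pderiv_mpol (a : Fin 4 → ℕ) (l : Fin 4) :
    X l * pderiv l (mpol a) = C (a l : ℂ) * mpol a := by
  rw [mpol_eq, X_mul_pderiv_monomial]
  simp

/-- exponents of `h` -/
def rayN (ρ : Fin 18) (i : Fin 4) : ℕ := (ray ρ i).toNat

theorem rayN_eq : ∀ (ρ : Fin 18) (i : Fin 4), (rayN ρ i : ℤ) = ray ρ i := by decide +kernel

theorem rnu_eq' : ∀ ρ : Fin 18, rnu ρ = rayN ρ 0 + rayN ρ 1 + rayN ρ 2 + rayN ρ 3 := by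
  decide +kernel

theorem rnu_pos : ∀ ρ : Fin 18, 0 < rnu ρ := by decide +kernel

/-- the morphism -/
noncomputable def hmap (y : Pt) : C4 := fun j => y.x (Pi.single j 1)

/-- the morphism in the charts -/
noncomputable def Hpoly (σ : Fin 48) (j : Fin 4) : MvPolynomial (Fin 4) ℂ :=
  mpol fun k => rayN (cone σ k) j

theorem pair_single (j : Fin 4) (v : Fin 4 → ℤ) : pair (Pi.single j 1) v = v j := by
  unfold pair
  fin_cases j <;> simp

theorem hmap_phi (σ : Fin 48) (t : C4) (j : Fin 4) :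
    hmap (phi σ t) j = ∏ k, t k ^ rayN (cone σ k) j := by
  change mon σ t _ = _
  unfold mon
  refine Finset.prod_congr rfl fun k _ => ?_
  rw [pair_single, ← rayN_eq, zpow_natCast]

theorem hmap_phi_eval (σ : Fin 48) (t : C4) (j : Fin 4) :
    hmap (phi σ t) j = eval t (Hpoly σ j) := by
  rw [hmap_phi, Hpoly, eval_mpol]

theorem continuous_hmap : Continuous hmap := by
  rw [continuous_iff]
  intro σ
  refine continuous_pi fun j => ?_
  have : (fun t => (hmap ∘ phi σ) t j) = fun t : C4 => ∏ k, t k ^ rayN (cone σ k) j := by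
    funext t
    exact hmap_phi σ t j
  rw [this]
  fun_prop

/-! ### The total transform -/

/-- exponents of the strict transform -/
def cexp (j : Fin 4) (ρ : Fin 18) : ℕ := (pair (expo j) (ray ρ) - rN ρ).toNat

theorem cexp_eq (j : Fin 4) (ρ : Fin 18) : (cexp j ρ : ℤ) = pair (expo j) (ray ρ) - rN ρ := by
  unfold cexp
  rw [Int.toNat_of_nonneg]
  have := (rN_eq ρ).1 j
  omega

/-- exponents of `fpoly` -/
def expoN (j i : Fin 4) : ℕ := (expo j i).toNat

theorem expoN_sum : ∀ (j : Fin 4) (ρ : Fin 18), rayN ρ 0 * expoN j 0 + rayN ρ 1 * expoN j 1 +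
    rayN ρ 2 * expoN j 2 + rayN ρ 3 * expoN j 3 = rN ρ + cexp j ρ := by decide +kernel

theorem ff_eq (v : C4) : ff v = ∑ j, ∏ i, v i ^ expoN j i := by
  simp only [Fin.sum_univ_four, Fin.prod_univ_four]
  simp [ff, expoN, expo]
  ring

/-- the equation of the strict transform in the chart `σ` -/
noncomputable def gpoly (σ : Fin 48) : MvPolynomial (Fin 4) ℂ :=
  ∑ j, mpol fun k => cexp j (cone σ k)

theorem eval_gpoly (σ : Fin 48) (t : C4) :
    eval t (gpoly σ) = ∑ j, ∏ k, t k ^ cexp j (cone σ k) := by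
  unfold gpoly
  rw [map_sum]
  exact Finset.sum_congr rfl fun j _ => eval_mpol _ t

theorem ff_hmap (σ : Fin 48) (t : C4) :
    ff (hmap (phi σ t)) = (∏ k, t k ^ rN (cone σ k)) * eval t (gpoly σ) := by
  rw [ff_eq, eval_gpoly, Finset.mul_sum]
  refine Finset.sum_congr rfl fun j _ => ?_
  simp only [hmap_phi]
  rw [← Finset.prod_mul_distrib]
  simp only [← Finset.prod_pow]
  rw [Finset.prod_comm]
  refine Finset.prod_congr rfl fun k _ => ?_
  rw [← pow_add, ← expoN_sum, Fin.prod_univ_four]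
  ring

/-! ### The Jacobian -/

theorem prod_Hpoly (σ : Fin 48) : ∏ j, Hpoly σ j = mpol fun k => rnu (cone σ k) := by
  unfold Hpoly mpol
  rw [Finset.prod_comm]
  refine Finset.prod_congr rfl fun k _ => ?_
  rw [Fin.prod_univ_four]
  change _ = X k ^ rnu (cone σ k)
  rw [rnu_eq']
  ring

theorem det_ray : ∀ σ : Fin 48, (Matrix.of fun i k : Fin 4 => ray (cone σ k) i).det ≠ 0 := by
  intro σ h
  have h2 : (Matrix.of fun k i : Fin 4 => dual σ k i) * (Matrix.of fun i k : Fin 4 =>
      ray (cone σ k) i) = 1 := by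
    ext k l
    rw [Matrix.mul_apply, Fin.sum_univ_four, Matrix.one_apply]
    exact dual_ray σ k l
  have h3 := congrArg Matrix.det h2
  rw [Matrix.det_mul, h, mul_zero, Matrix.det_one] at h3
  exact zero_ne_one h3

/-- the determinant of the rays -/
noncomputable def dray (σ : Fin 48) : ℂ :=
  (((Matrix.of fun i k : Fin 4 => ray (cone σ k) i).det : ℤ) : ℂ)

theorem dray_ne_zero (σ : Fin 48) : dray σ ≠ 0 := by
  unfold dray
  exact_mod_cast det_ray σ

theorem jac_poly (σ : Fin 48) :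
    (Matrix.of fun k l => pderiv l (Hpoly σ k)).det =
      C (dray σ) * mpol fun k => rnu (cone σ k) - 1 := by
  have hX : (∏ l : Fin 4, X l : MvPolynomial (Fin 4) ℂ) ≠ 0 :=
    Finset.prod_ne_zero_iff.2 fun l _ => X_ne_zero l
  apply mul_left_cancel₀ hX
  rw [← Matrix.det_mul_row]
  have e1 : (Matrix.of fun i j : Fin 4 => (X j : MvPolynomial (Fin 4) ℂ) *
      (Matrix.of fun k l => pderiv l (Hpoly σ k)) i j) =
      Matrix.of fun i j : Fin 4 => Hpoly σ i * (Matrix.of fun i k : Fin 4 =>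
        (C ((ray (cone σ k) i : ℤ) : ℂ) : MvPolynomial (Fin 4) ℂ)) i j := by
    refine Matrix.ext fun i j => ?_
    simp only [Matrix.of_apply]
    have := X_mul_pderiv_mpol (fun k => rayN (cone σ k) i) j
    rw [Hpoly, this, mul_comm]
    congr 2
    rw [← rayN_eq]
    simp
  rw [e1, Matrix.det_mul_column, prod_Hpoly]
  have e2 : (Matrix.of fun i k : Fin 4 =>
        (C ((ray (cone σ k) i : ℤ) : ℂ) : MvPolynomial (Fin 4) ℂ)).det = C (dray σ) := by
    unfold dray
    have h1 : ((((Matrix.of fun i k : Fin 4 => ray (cone σ k) i).det : ℤ) : ℂ)) =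
        (Matrix.of fun i k : Fin 4 => ((ray (cone σ k) i : ℤ) : ℂ)).det := by
      have := RingHom.map_det (Int.castRingHom ℂ) (Matrix.of fun i k : Fin 4 => ray (cone σ k) i)
      exact this
    rw [h1]
    have := RingHom.map_det (C : ℂ →+* MvPolynomial (Fin 4) ℂ)
      (Matrix.of fun i k : Fin 4 => ((ray (cone σ k) i : ℤ) : ℂ))
    exact this.symm
  rw [e2]
  have e3 : (mpol fun k => rnu (cone σ k)) = (∏ l : Fin 4, X l : MvPolynomial (Fin 4) ℂ) *
      mpol fun k => rnu (cone σ k) - 1 := by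
    unfold mpol
    rw [← Finset.prod_mul_distrib]
    refine Finset.prod_congr rfl fun k _ => ?_
    change X k ^ rnu (cone σ k) = X k * X k ^ (rnu (cone σ k) - 1)
    rw [← pow_succ', Nat.sub_add_cancel (rnu_pos (cone σ k))]
  rw [e3]
  ring

theorem jac_eval (σ : Fin 48) (u : C4) :
    (Matrix.of fun k l => eval u (pderiv l (Hpoly σ k))).det =
      dray σ * ∏ k, u k ^ (rnu (cone σ k) - 1) := by
  have h1 := congrArg (eval u) (jac_poly σ)
  rw [map_mul, eval_C, eval_mpol] at h1
  rw [← h1]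
  have := RingHom.map_det (eval u) (Matrix.of fun k l => pderiv l (Hpoly σ k))
  exact this.symm

end TV
end HoloConj
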