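import Pool.Agent.Lib.MP_ed311f_ag.TV.Div

/-!
# Local normal crossings form
-/

open Topology MvPolynomial

namespace HoloConj
namespace TV

theorem rnu_of_rN : ∀ ρ : Fin 18, rN ρ = 0 → rnu ρ - 1 = 0 := by decide +kernel

/-- the components of the rays through the point `u₀` -/
noncomputable def lab (σ : Fin 48) (u₀ : C4) (k : Fin 4) : Option JJ :=
  open Classical in
  if h : u₀ k = 0 ∧ 0 < rN (cone σ k) then some (some ⟨cone σ k, h.2⟩) else none

theorem lab_eq_some {σ : Fin 48} {u₀ : C4} {k : Fin 4} {j : JJ} (h : lab σ u₀ k = some j) :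
    u₀ k = 0 ∧ ∃ h : 0 < rN (cone σ k), j = some ⟨cone σ k, h⟩ := by
  classical
  unfold lab at h
  by_cases h' : u₀ k = 0 ∧ 0 < rN (cone σ k)
  · rw [dif_pos h', Option.some_inj] at h
    exact ⟨h'.1, h'.2, h.symm⟩
  · rw [dif_neg h'] at h
    exact absurd h (by simp)

theorem lab_of {σ : Fin 48} {u₀ : C4} {k : Fin 4} (h : u₀ k = 0) (hN : 0 < rN (cone σ k)) :
    lab σ u₀ k = some (some ⟨cone σ k, hN⟩) := by
  classical
  unfold lab
  rw [dif_pos ⟨h, hN⟩]

theorem lab_of_ne {σ : Fin 48} {u₀ : C4} {k : Fin 4} (h : u₀ k ≠ 0) : lab σ u₀ k = none := by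
  classical
  unfold lab
  rw [dif_neg fun h' => h h'.1]

theorem lab_of_rN {σ : Fin 48} {u₀ : C4} {k : Fin 4} (h : rN (cone σ k) = 0) :
    lab σ u₀ k = none := by
  classical
  unfold lab
  rw [dif_neg fun h' => h'.2.ne' h]

theorem exists_factor (σ : Fin 48) (u₀ : C4) (e : Fin 18 → ℕ) (he : ∀ ρ, rN ρ = 0 → e ρ = 0)
    (E : JJ → ℕ) (hE : ∀ ρ, E (some ρ) = e ρ.1) :
    ∃ p : MvPolynomial (Fin 4) ℂ, eval u₀ p ≠ 0 ∧ ∀ u : C4, ∏ k, u k ^ e (cone σ k) =
      eval u p * ∏ k, eval u (X k - C (u₀ k)) ^ (lab σ u₀ k).elim 0 E := by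
  have key : ∀ k, ∃ p : MvPolynomial (Fin 4) ℂ, eval u₀ p ≠ 0 ∧ ∀ u : C4, u k ^ e (cone σ k) =
      eval u p * eval u (X k - C (u₀ k)) ^ (lab σ u₀ k).elim 0 E := by
    intro k
    by_cases hN : 0 < rN (cone σ k)
    · by_cases hk : u₀ k = 0
      · refine ⟨1, by simp, fun u => ?_⟩
        rw [lab_of hk hN, hk]
        simp [hE]
      · refine ⟨X k ^ e (cone σ k), ?_, fun u => ?_⟩
        · simp [hk]
        · rw [lab_of_ne hk]
          simp
    · have hN' : rN (cone σ k) = 0 := by omega
      refine ⟨1, by simp, fun u => ?_⟩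
      rw [lab_of_rN hN', he _ hN']
      simp
  choose p hp0 hp using key
  refine ⟨∏ k, p k, ?_, fun u => ?_⟩
  · rw [map_prod]
    exact Finset.prod_ne_zero_iff.2 fun k _ => hp0 k
  · rw [map_prod, ← Finset.prod_mul_distrib]
    exact Finset.prod_congr rfl fun k _ => hp k u

theorem local_form' (y : Pt) : ∃ (i : Fin 48) (u₀ : Fin 4 → ℂ), phi i u₀ = y ∧
    ∃ (t : Fin 4 → MvPolynomial (Fin 4) ℂ) (a : Fin 4 → Option JJ),
      (∀ k, eval u₀ (t k) = 0) ∧
      (Matrix.of fun k l => eval u₀ (pderiv l (t k))).det ≠ 0 ∧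
      (∀ k l j, a k = some j → a l = some j → k = l) ∧
      (∀ j, y ∈ comp j → ∃ k, a k = some j) ∧
      (∀ k j, a k = some j →
        ∀ᶠ u in 𝓝 u₀, (phi i u ∈ comp j ↔ eval u (t k) = 0)) ∧
      (∃ p q : MvPolynomial (Fin 4) ℂ,
        eval u₀ p ≠ 0 ∧ eval u₀ q ≠ 0 ∧
        ∀ u, eval u q * eval (hmap (phi i u)) fpoly =
          eval u p * ∏ k, eval u (t k) ^ ((a k).elim 0 NN)) ∧
      (∃ p q : MvPolynomial (Fin 4) ℂ,
        eval u₀ p ≠ 0 ∧ eval u₀ q ≠ 0 ∧
        ∀ u, eval u q *
            (Matrix.of fun k l => eval u (pderiv l (Hpoly i k))).det =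
          eval u p * ∏ k, eval u (t k) ^ ((a k).elim 0 fun j => nunu j - 1)) := by
  classical
  obtain ⟨σ, u₀, rfl⟩ := exists_phi y
  obtain ⟨p1, hp1, hp1'⟩ := exists_factor σ u₀ rN (fun ρ h => h) NN fun _ => rfl
  obtain ⟨p2, hp2, hp2'⟩ := exists_factor σ u₀ (fun ρ => rnu ρ - 1) rnu_of_rN
    (fun j => nunu j - 1) fun _ => rfl
  have hinj : ∀ k l j, lab σ u₀ k = some j → lab σ u₀ l = some j → k = l := by
    intro k l j hk hl
    obtain ⟨-, h1, h2⟩ := lab_eq_some hk
    obtain ⟨-, h3, h4⟩ := lab_eq_some hl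
    rw [h2] at h4
    have h5 : cone σ k = cone σ l := by
      simpa using h4
    exact cone_injective σ h5
  have hcomp : ∀ k j, lab σ u₀ k = some j →
      ∀ u : C4, (phi σ u ∈ comp j ↔ eval u (X k - C (u₀ k) : MvPolynomial (Fin 4) ℂ) = 0) := by
    intro k j hk u
    obtain ⟨h0, h1, rfl⟩ := lab_eq_some hk
    rw [map_sub, eval_X, eval_C, h0, sub_zero]
    exact cone_mem_divi
  by_cases hg : eval u₀ (gpoly σ) = 0
  · obtain ⟨j, hj0, hj⟩ := nc σ u₀ hg
    refine ⟨σ, u₀, rfl, Function.update (fun k => X k - C (u₀ k)) j (gpoly σ),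
      Function.update (lab σ u₀) j (some none), ?_, ?_, ?_, ?_, ?_, ?_, ?_⟩
    · intro k
      by_cases hk : k = j
      · subst hk
        rw [Function.update_self]
        exact hg
      · rw [Function.update_of_ne hk]
        simp
    · intro hdet
      obtain ⟨v, hv, hMv⟩ := Matrix.exists_mulVec_eq_zero_iff.2 hdet
      apply hv
      have h1 : ∀ k, k ≠ j → v k = 0 := by
        intro k hk
        have h2 := congrFun hMv k
        rw [Matrix.mulVec, dotProduct, Finset.sum_eq_single k] at h2
        · simpa [Function.update_of_ne hk] using h2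
        · intro l _ hl
          simp [Function.update_of_ne hk, pderiv_X, hl]
        · simp
      funext k
      by_cases hk : k = j
      · subst hk
        have h2 := congrFun hMv k
        rw [Matrix.mulVec, dotProduct, Finset.sum_eq_single k] at h2
        · simp only [Matrix.of_apply, Function.update_self, Pi.zero_apply, mul_eq_zero] at h2
          rcases h2 with h2 | h2
          · exact absurd h2 hj
          · exact h2
        · intro l _ hl
          rw [h1 l hl, mul_zero]
        · simp
      · exact h1 k hk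
    · intro k l i hk hl
      by_cases hkj : k = j
      · by_cases hlj : l = j
        · rw [hkj, hlj]
        · rw [hkj, Function.update_self, Option.some_inj] at hk
          rw [Function.update_of_ne hlj, ← hk] at hl
          obtain ⟨-, _, h⟩ := lab_eq_some hl
          exact absurd h (by simp)
      · by_cases hlj : l = j
        · rw [hlj, Function.update_self, Option.some_inj] at hl
          rw [Function.update_of_ne hkj, ← hl] at hk
          obtain ⟨-, _, h⟩ := lab_eq_some hk
          exact absurd h (by simp)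
        · rw [Function.update_of_ne hkj] at hk
          rw [Function.update_of_ne hlj] at hl
          exact hinj k l i hk hl
    · rintro (_ | ρ) h
      · exact ⟨j, by rw [Function.update_self]⟩
      · obtain ⟨k, hk, hk0⟩ := h
        have hkj : k ≠ j := by
          rintro rfl
          exact hj0 hk0
        refine ⟨k, ?_⟩
        rw [Function.update_of_ne hkj]
        obtain ⟨ρ, hρ⟩ := ρ
        subst hk
        exact lab_of hk0 hρ
    · intro k i hk
      by_cases hkj : k = j
      · subst hkj
        rw [Function.update_self, Option.some_inj] at hk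
        subst hk
        refine Filter.Eventually.of_forall fun u => ?_
        rw [Function.update_self]
        exact mem_strict
      · rw [Function.update_of_ne hkj] at hk
        refine Filter.Eventually.of_forall fun u => ?_
        rw [Function.update_of_ne hkj]
        exact hcomp k i hk u
    · refine ⟨p1, 1, hp1, by simp, fun u => ?_⟩
      rw [eval_fpoly, ff_hmap, hp1' u, map_one, one_mul, mul_assoc]
      congr 1
      have hprod : ∀ F : Fin 4 → ℂ, ∏ k, F k = F j * ∏ k ∈ Finset.univ.erase j, F k :=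
        fun F => (Finset.mul_prod_erase _ F (Finset.mem_univ j)).symm
      rw [hprod, hprod]
      rw [lab_of_ne hj0, Function.update_self, Function.update_self]
      have : ∀ k ∈ Finset.univ.erase j,
          eval u (Function.update (fun k => X k - C (u₀ k)) j (gpoly σ) k) ^
            ((Function.update (lab σ u₀) j (some none) k).elim 0 NN) =
          eval u (X k - C (u₀ k)) ^ ((lab σ u₀ k).elim 0 NN) := by
        intro k hk
        have hkj := Finset.ne_of_mem_erase hk
        rw [Function.update_of_ne hkj, Function.update_of_ne hkj]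
      rw [Finset.prod_congr rfl this]
      simp only [Option.elim, NN, pow_zero, one_mul, pow_one]
      ring
    · refine ⟨C (dray σ) * p2, 1, by simp [dray_ne_zero, hp2], by simp, fun u => ?_⟩
      rw [jac_eval, hp2' u, map_one, one_mul, map_mul, eval_C, mul_assoc]
      congr 2
      refine Finset.prod_congr rfl fun k _ => ?_
      by_cases hk : k = j
      · subst hk
        rw [Function.update_self, lab_of_ne hj0]
        simp [nunu]
      · rw [Function.update_of_ne hk, Function.update_of_ne hk]
  · refine ⟨σ, u₀, rfl, fun k => X k - C (u₀ k), lab σ u₀, ?_, ?_, hinj, ?_, ?_, ?_, ?_⟩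
    · intro k
      simp
    · have : (Matrix.of fun k l => eval u₀ (pderiv l (X k - C (u₀ k) :
          MvPolynomial (Fin 4) ℂ))) = 1 := by
        refine Matrix.ext fun k l => ?_
        rw [Matrix.of_apply, Matrix.one_apply, map_sub, pderiv_C, sub_zero, pderiv_X]
        by_cases h : k = l
        · subst h; simp
        · simp [h]
      rw [this, Matrix.det_one]
      exact one_ne_zero
    · rintro (_ | ρ) h
      · exact absurd (mem_strict.1 h) hg
      · obtain ⟨k, hk, hk0⟩ := h
        refine ⟨k, ?_⟩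
        obtain ⟨ρ, hρ⟩ := ρ
        subst hk
        exact lab_of hk0 hρ
    · intro k j hk
      exact Filter.Eventually.of_forall (hcomp k j hk)
    · refine ⟨gpoly σ * p1, 1, by simp [hg, hp1], by simp, fun u => ?_⟩
      rw [eval_fpoly, ff_hmap, hp1' u, map_one, one_mul, map_mul]
      ring
    · refine ⟨C (dray σ) * p2, 1, by simp [dray_ne_zero, hp2], by simp, fun u => ?_⟩
      rw [jac_eval, hp2' u, map_one, one_mul, map_mul, eval_C, mul_assoc]

end TV
end HoloConj
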