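import Pool.Agent.Lib.MP_ed311f_ag.TV.Proper
import Pool.Agent.Lib.MP_ed311f_ag.TV.Bij
import Pool.Agent.Lib.MP_ed311f_ag.TV.Irred
import Pool.Agent.Lib.MP_ed311f_ag.TV.NC

/-!
# The embedded resolution
-/

open Topology MvPolynomial

namespace HoloConj
namespace TV

/-- The toric embedded resolution of `fpoly`. -/
noncomputable def res : EmbeddedResolution fpoly where
  toChartVariety := toricVariety
  h := hmap
  H := Hpoly
  h_chart := hmap_phi_eval
  h_proper := isProperMap_hmap
  h_bij x hx := h_bij' x (by rwa [eval_fpoly] at hx)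
  h_inv x hx := by
    obtain ⟨i, g, P, hg, h⟩ := h_inv' x (by rwa [eval_fpoly] at hx)
    exact ⟨i, g, P, hg, fun x' hx' hg' => h x' (by rwa [eval_fpoly] at hx') hg'⟩
  J := JJ
  E := comp
  N := NN
  ν := nunu
  N_pos := NN_pos
  ν_pos := nunu_pos
  E_irred := irred_comp
  E_injective := comp_injective
  iUnion_E y := by
    rw [eval_fpoly]
    exact iUnion_comp y
  local_form := local_form'

end TV
end HoloConj
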