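import Pool.Agent.Lib.MP_ed311f_ag.TV.Res

/-!
# The strata
-/

open Topology MvPolynomial

namespace HoloConj
namespace TV

/-- coordinates of the chart `σ` -/
noncomputable def psi (σ : Fin 48) (y : Pt) : C4 := fun k => y.x (dual σ k)

theorem psi_phi (σ : Fin 48) (t : C4) : psi σ (phi σ t) = t := by
  funext k
  exact mon_dual σ t k

theorem phi_psi {σ : Fin 48} {y : Pt} (h : y ∈ Set.range (phi σ)) : phi σ (psi σ y) = y := by
  obtain ⟨t, rfl⟩ := h
  rw [psi_phi]

theorem continuousOn_psi (σ : Fin 48) : ContinuousOn (psi σ) (Set.range (phi σ)) := by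
  rintro _ ⟨t, rfl⟩
  refine ContinuousAt.continuousWithinAt ?_
  rw [← (isOpenEmbedding_phi σ).continuousAt_iff]
  have : psi σ ∘ phi σ = id := funext fun t => psi_phi σ t
  rw [this]
  exact continuousAt_id

/-- a subset of a chart, seen in the chart -/
noncomputable def chartHomeo (σ : Fin 48) (A : Set Pt) (hA : A ⊆ Set.range (phi σ)) :
    A ≃ₜ {t : C4 // phi σ t ∈ A} where
  toFun y := ⟨psi σ y.1, by rw [phi_psi (hA y.2)]; exact y.2⟩
  invFun t := ⟨phi σ t.1, t.2⟩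
  left_inv y := Subtype.ext (phi_psi (hA y.2))
  right_inv t := Subtype.ext (psi_phi σ t.1)
  continuous_toFun := by
    refine Continuous.subtype_mk ?_ _
    exact (continuousOn_psi σ).comp_continuous continuous_subtype_val fun y => hA y.2
  continuous_invFun := by
    refine Continuous.subtype_mk ?_ _
    exact (continuous_phi σ).comp continuous_subtype_val

/-- the points lying on the components of the rays in `S` and on no other component -/
def strat (S : List (Fin 18)) : Set Pt :=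
  {y | y ∉ strict ∧ ∀ ρ, 0 < rN ρ → (ρ ∈ y.Z ↔ ρ ∈ S)}

theorem stratum_eq {I : Finset JJ} {S : List (Fin 18)} (h0 : none ∉ I)
    (h : ∀ ρ : {ρ : Fin 18 // 0 < rN ρ}, some ρ ∈ I ↔ ρ.1 ∈ S) : res.stratum I = strat S := by
  ext y
  constructor
  · intro hy
    refine ⟨fun hs => h0 ((hy none).1 hs), fun ρ hρ => ?_⟩
    exact (hy (some ⟨ρ, hρ⟩)).trans (h ⟨ρ, hρ⟩)
  · rintro ⟨h1, h2⟩ (_ | ρ)
    · exact iff_of_false h1 h0
    · exact (h2 ρ.1 ρ.2).trans (h ρ).symm

theorem mem_strat {σ : Fin 48} {t : C4} {S : List (Fin 18)} :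
    phi σ t ∈ strat S ↔ eval t (gpoly σ) ≠ 0 ∧
      (∀ k, 0 < rN (cone σ k) → (t k = 0 ↔ cone σ k ∈ S)) ∧
      ∀ ρ ∈ S, 0 < rN ρ → ∃ k, cone σ k = ρ := by
  unfold strat
  rw [Set.mem_ofPred_eq, mem_strict]
  refine and_congr_right fun _ => ?_
  constructor
  · intro h
    refine ⟨fun k hk => ?_, fun ρ hρ hN => ?_⟩
    · rw [← h (cone σ k) hk]
      exact cone_mem_zer.symm
    · obtain ⟨k, hk, -⟩ := (h ρ hN).2 hρ
      exact ⟨k, hk⟩
  · rintro ⟨h1, h2⟩ ρ hN
    constructor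
    · rintro ⟨k, rfl, hk0⟩
      exact (h1 k hN).1 hk0
    · intro h
      obtain ⟨k, rfl⟩ := h2 ρ h hN
      exact ⟨k, rfl, (h1 k hN).2 h⟩

theorem strat_subset_range {σ : Fin 48} {S : List (Fin 18)}
    (h : ∀ τ : Fin 48, (∀ ρ ∈ S, 0 < rN ρ → ∃ k, cone τ k = ρ) →
      ∀ m, (rN (cone τ m) = 0 ∨ cone τ m ∈ S) → ∃ l, cone σ l = cone τ m) :
    strat S ⊆ Set.range (phi σ) := by
  intro y hy
  obtain ⟨τ, t, rfl⟩ := exists_phi y
  obtain ⟨-, h2, h3⟩ := mem_strat.1 hy
  rw [mem_range_phi_iff]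
  rintro ρ ⟨m, rfl, hm⟩
  refine h τ h3 m ?_
  rcases Nat.eq_zero_or_pos (rN (cone τ m)) with h0 | h0
  · exact Or.inl h0
  · exact Or.inr ((h2 m h0).1 hm)

/-- the ray `7` -/
abbrev cr : JJ := some ⟨7, by decide⟩
/-- the ray `10` -/
abbrev crz : JJ := some ⟨10, by decide⟩
/-- the ray `9` -/
abbrev cm : JJ := some ⟨9, by decide⟩
/-- the ray `14` -/
abbrev cq : JJ := some ⟨14, by decide⟩

theorem gpoly_eight (t : C4) : eval t (gpoly 8) =
    1 + t 1 + t 0 ^ 2 * t 1 * t 3 + t 1 ^ 2 * t 2 ^ 4 * t 3 := by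
  rw [eval_gpoly, Fin.sum_univ_four]
  simp only [Fin.prod_univ_four]
  simp [cexp, cone, pair, expo, ray, rN]
  ring

theorem gpoly_42 (t : C4) : eval t (gpoly 42) =
    1 + t 0 + t 0 * t 2 ^ 2 * t 3 + t 0 ^ 2 * t 1 ^ 4 * t 2 ^ 4 * t 3 ^ 3 := by
  rw [eval_gpoly, Fin.sum_univ_four]
  simp only [Fin.prod_univ_four]
  simp [cexp, cone, pair, expo, ray, rN]
  ring

theorem gpoly_41 (t : C4) : eval t (gpoly 41) =
    1 + t 0 + t 0 * t 2 + t 0 ^ 2 * t 1 ^ 4 * t 2 * t 3 ^ 2 := by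
  rw [eval_gpoly, Fin.sum_univ_four]
  simp only [Fin.prod_univ_four]
  simp [cexp, cone, pair, expo, ray, rN]
  ring

theorem range1 : strat [7] ⊆ Set.range (phi 8) :=
  strat_subset_range (by decide +kernel)

theorem range2 : strat [7, 10] ⊆ Set.range (phi 42) :=
  strat_subset_range (by decide +kernel)

theorem range3 : strat [7, 9] ⊆ Set.range (phi 8) :=
  strat_subset_range (by decide +kernel)

theorem range4 : strat [7, 14] ⊆ Set.range (phi 41) :=
  strat_subset_range (by decide +kernel)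

theorem range5 : strat [7, 9, 14] ⊆ Set.range (phi 41) :=
  strat_subset_range (by decide +kernel)

theorem mem1 (t : C4) : phi 8 t ∈ strat [7] ↔
    t 2 = 0 ∧ t 1 ≠ 0 ∧ t 3 ≠ 0 ∧ 1 + t 1 + t 0 ^ 2 * (t 1 * t 3) ≠ 0 := by
  rw [mem_strat, gpoly_eight]
  simp only [Fin.forall_fin_succ, Fin.exists_fin_succ]
  simp [cone, rN]
  constructor
  · rintro ⟨a, b, c, d⟩
    refine ⟨c, b, d, fun h => a ?_⟩
    rw [c]
    linear_combination h
  · rintro ⟨c, b, d, a⟩
    refine ⟨fun h => a ?_, b, c, d⟩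
    rw [c] at h
    linear_combination h

theorem mem2 (t : C4) : phi 42 t ∈ strat [7, 10] ↔
    t 1 = 0 ∧ t 2 = 0 ∧ t 0 ≠ 0 ∧ t 3 ≠ 0 ∧ 1 + t 0 ≠ 0 := by
  rw [mem_strat, gpoly_42]
  simp only [Fin.forall_fin_succ, Fin.exists_fin_succ]
  simp [cone, rN]
  constructor
  · rintro ⟨a, b, c, d, e⟩
    refine ⟨c, d, b, e, fun h => a ?_⟩
    rw [c, d]
    linear_combination h
  · rintro ⟨c, d, b, e, a⟩
    refine ⟨fun h => a ?_, b, c, d, e⟩
    rw [c, d] at h
    linear_combination h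

theorem mem3 (t : C4) : phi 8 t ∈ strat [7, 9] ↔
    t 2 = 0 ∧ t 3 = 0 ∧ t 1 ≠ 0 ∧ 1 + t 1 ≠ 0 := by
  rw [mem_strat, gpoly_eight]
  simp only [Fin.forall_fin_succ, Fin.exists_fin_succ]
  simp [cone, rN]
  constructor
  · rintro ⟨a, b, c, d⟩
    refine ⟨c, d, b, fun h => a ?_⟩
    rw [c, d]
    linear_combination h
  · rintro ⟨c, d, b, a⟩
    refine ⟨fun h => a ?_, b, c, d⟩
    rw [c, d] at h
    linear_combination h

theorem mem4 (t : C4) : phi 41 t ∈ strat [7, 14] ↔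
    t 1 = 0 ∧ t 3 = 0 ∧ t 0 ≠ 0 ∧ t 2 ≠ 0 ∧ 1 + t 0 + t 0 * t 2 ≠ 0 := by
  rw [mem_strat, gpoly_41]
  simp only [Fin.forall_fin_succ, Fin.exists_fin_succ]
  simp [cone, rN]
  constructor
  · rintro ⟨a, b, c, d, e⟩
    refine ⟨c, e, b, d, fun h => a ?_⟩
    rw [c, e]
    linear_combination h
  · rintro ⟨c, e, b, d, a⟩
    refine ⟨fun h => a ?_, b, c, d, e⟩
    rw [c, e] at h
    linear_combination h

theorem mem5 (t : C4) : phi 41 t ∈ strat [7, 9, 14] ↔
    t 1 = 0 ∧ t 2 = 0 ∧ t 3 = 0 ∧ t 0 ≠ 0 ∧ 1 + t 0 ≠ 0 := by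
  rw [mem_strat, gpoly_41]
  simp only [Fin.forall_fin_succ, Fin.exists_fin_succ]
  simp [cone, rN]
  constructor
  · rintro ⟨a, b, c, d, e⟩
    refine ⟨c, d, e, b, fun h => a ?_⟩
    rw [c, d, e]
    linear_combination h
  · rintro ⟨c, d, e, b, a⟩
    refine ⟨fun h => a ?_, b, c, d, e⟩
    rw [c, d, e] at h
    linear_combination h

/-! ### The homeomorphisms -/

noncomputable def homeo1 : {t : C4 // phi 8 t ∈ strat [7]} ≃ₜ S1 where
  toFun t := ⟨(t.1 0, t.1 1, t.1 1 * t.1 3), by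
    obtain ⟨h1, h2, h3, h4⟩ := (mem1 t.1).1 t.2
    exact ⟨h2, mul_ne_zero h2 h3, h4⟩⟩
  invFun p := ⟨![p.1.1, p.1.2.1, 0, p.1.2.2 / p.1.2.1], by
    obtain ⟨⟨s, a, b⟩, h1, h2, h3⟩ := p
    simp only at h1 h2 h3
    rw [mem1]
    simp only [Matrix.cons_val]
    refine ⟨trivial, h1, div_ne_zero h2 h1, ?_⟩
    rwa [mul_div_cancel₀ _ h1]⟩
  left_inv t := by
    obtain ⟨h1, h2, h3, h4⟩ := (mem1 t.1).1 t.2
    apply Subtype.ext
    funext k
    fin_cases k
    · rfl
    · rfl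
    · exact h1.symm
    · simp only [Fin.reduceFinMk, Matrix.cons_val]
      exact mul_div_cancel_left₀ _ h2
  right_inv p := by
    obtain ⟨⟨s, a, b⟩, h1, h2, h3⟩ := p
    simp only at h1 h2 h3
    apply Subtype.ext
    simp only [Matrix.cons_val, Matrix.cons_val_zero, Matrix.cons_val_one]
    rw [mul_div_cancel₀ _ h1]
  continuous_toFun := by
    refine Continuous.subtype_mk ?_ _
    have hc : ∀ k, Continuous fun t : {t : C4 // phi 8 t ∈ strat [7]} => t.1 k :=
      fun k => (continuous_apply k).comp continuous_subtype_val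
    exact (hc 0).prodMk ((hc 1).prodMk ((hc 1).mul (hc 3)))
  continuous_invFun := by
    refine Continuous.subtype_mk ?_ _
    refine continuous_pi fun k => ?_
    fin_cases k
    · simp; fun_prop
    · simp; fun_prop
    · simp; fun_prop
    · simp only [Fin.reduceFinMk, Matrix.cons_val]
      exact Continuous.div (by fun_prop) (by fun_prop) fun p => p.2.1

noncomputable def homeo2 : {t : C4 // phi 42 t ∈ strat [7, 10]} ≃ₜ S2 where
  toFun t := ⟨(t.1 0, t.1 3), by
    obtain ⟨h1, h2, h3, h4, h5⟩ := (mem2 t.1).1 t.2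
    exact ⟨h3, h4, h5⟩⟩
  invFun p := ⟨![p.1.1, 0, 0, p.1.2], by
    obtain ⟨⟨a, b⟩, h1, h2, h3⟩ := p
    simp only at h1 h2 h3
    rw [mem2]
    simp only [Matrix.cons_val]
    exact ⟨trivial, trivial, h1, h2, h3⟩⟩
  left_inv t := by
    obtain ⟨h1, h2, h3, h4⟩ := (mem2 t.1).1 t.2
    apply Subtype.ext
    funext k
    fin_cases k
    · rfl
    · exact h1.symm
    · exact h2.symm
    · rfl
  right_inv p := rfl
  continuous_toFun := by
    refine Continuous.subtype_mk ?_ _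
    have hc : ∀ k, Continuous fun t : {t : C4 // phi 42 t ∈ strat [7, 10]} => t.1 k :=
      fun k => (continuous_apply k).comp continuous_subtype_val
    exact (hc 0).prodMk (hc 3)
  continuous_invFun := by
    refine Continuous.subtype_mk ?_ _
    refine continuous_pi fun k => ?_
    fin_cases k <;> (simp; fun_prop)

noncomputable def homeo3 : {t : C4 // phi 8 t ∈ strat [7, 9]} ≃ₜ S3 where
  toFun t := ⟨(t.1 0, t.1 1), by
    obtain ⟨h1, h2, h3, h4⟩ := (mem3 t.1).1 t.2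
    exact ⟨h3, h4⟩⟩
  invFun p := ⟨![p.1.1, p.1.2, 0, 0], by
    obtain ⟨⟨a, b⟩, h1, h2⟩ := p
    simp only at h1 h2
    rw [mem3]
    simp only [Matrix.cons_val]
    exact ⟨trivial, trivial, h1, h2⟩⟩
  left_inv t := by
    obtain ⟨h1, h2, h3, h4⟩ := (mem3 t.1).1 t.2
    apply Subtype.ext
    funext k
    fin_cases k
    · rfl
    · rfl
    · exact h1.symm
    · exact h2.symm
  right_inv p := rfl
  continuous_toFun := by
    refine Continuous.subtype_mk ?_ _
    have hc : ∀ k, Continuous fun t : {t : C4 // phi 8 t ∈ strat [7, 9]} => t.1 k :=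
      fun k => (continuous_apply k).comp continuous_subtype_val
    exact (hc 0).prodMk (hc 1)
  continuous_invFun := by
    refine Continuous.subtype_mk ?_ _
    refine continuous_pi fun k => ?_
    fin_cases k <;> (simp; fun_prop)

noncomputable def homeo4 : {t : C4 // phi 41 t ∈ strat [7, 14]} ≃ₜ S4 where
  toFun t := ⟨(t.1 0, t.1 0 * t.1 2), by
    obtain ⟨h1, h2, h3, h4, h5⟩ := (mem4 t.1).1 t.2
    exact ⟨h3, mul_ne_zero h3 h4, h5⟩⟩
  invFun p := ⟨![p.1.1, 0, p.1.2 / p.1.1, 0], by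
    obtain ⟨⟨a, b⟩, h1, h2, h3⟩ := p
    simp only at h1 h2 h3
    rw [mem4]
    simp only [Matrix.cons_val]
    refine ⟨trivial, trivial, h1, div_ne_zero h2 h1, ?_⟩
    rwa [mul_div_cancel₀ _ h1]⟩
  left_inv t := by
    obtain ⟨h1, h2, h3, h4⟩ := (mem4 t.1).1 t.2
    apply Subtype.ext
    funext k
    fin_cases k
    · rfl
    · exact h1.symm
    · simp only [Fin.reduceFinMk, Matrix.cons_val]
      exact mul_div_cancel_left₀ _ h3
    · exact h2.symm
  right_inv p := by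
    obtain ⟨⟨a, b⟩, h1, h2, h3⟩ := p
    simp only at h1 h2 h3
    apply Subtype.ext
    simp only [Matrix.cons_val, Matrix.cons_val_zero]
    rw [mul_div_cancel₀ _ h1]
  continuous_toFun := by
    refine Continuous.subtype_mk ?_ _
    have hc : ∀ k, Continuous fun t : {t : C4 // phi 41 t ∈ strat [7, 14]} => t.1 k :=
      fun k => (continuous_apply k).comp continuous_subtype_val
    exact (hc 0).prodMk ((hc 0).mul (hc 2))
  continuous_invFun := by
    refine Continuous.subtype_mk ?_ _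
    refine continuous_pi fun k => ?_
    fin_cases k
    · simp; fun_prop
    · simp; fun_prop
    · simp only [Fin.reduceFinMk, Matrix.cons_val]
      exact Continuous.div (by fun_prop) (by fun_prop) fun p => p.2.1
    · simp; fun_prop

noncomputable def homeo5 : {t : C4 // phi 41 t ∈ strat [7, 9, 14]} ≃ₜ S5 where
  toFun t := ⟨t.1 0, by
    obtain ⟨h1, h2, h3, h4, h5⟩ := (mem5 t.1).1 t.2
    exact ⟨h4, h5⟩⟩
  invFun p := ⟨![p.1, 0, 0, 0], by
    obtain ⟨a, h1, h2⟩ := p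
    rw [mem5]
    simp only [Matrix.cons_val]
    exact ⟨trivial, trivial, trivial, h1, h2⟩⟩
  left_inv t := by
    obtain ⟨h1, h2, h3, h4⟩ := (mem5 t.1).1 t.2
    apply Subtype.ext
    funext k
    fin_cases k
    · rfl
    · exact h1.symm
    · exact h2.symm
    · exact h3.symm
  right_inv p := rfl
  continuous_toFun := by
    refine Continuous.subtype_mk ?_ _
    have hc : ∀ k, Continuous fun t : {t : C4 // phi 41 t ∈ strat [7, 9, 14]} => t.1 k :=
      fun k => (continuous_apply k).comp continuous_subtype_val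
    exact hc 0
  continuous_invFun := by
    refine Continuous.subtype_mk ?_ _
    refine continuous_pi fun k => ?_
    fin_cases k <;> (simp; fun_prop)

end TV
end HoloConj
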